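import Pool.Agent.Lib.MP_64bee1_co.Sparse

/-!
Unimodality for columns of bounded size and all large numbers of vertices.
-/

namespace Pool.Agent.Lib.MP_64bee1_co

open Finset Filter

theorem exists_root (N : ℕ) : ∃ m : ℕ, m ^ 8 ≤ N ∧ N < (m + 1) ^ 8 := by
  induction N with
  | zero => exact ⟨0, by simp⟩
  | succ N ih =>
    obtain ⟨m, h1, h2⟩ := ih
    rcases Nat.lt_or_ge (N + 1) ((m + 1) ^ 8) with h | h
    · exact ⟨m, by omega, h⟩
    · exact ⟨m + 1, h, lt_of_le_of_lt h2 (Nat.pow_lt_pow_left (Nat.lt_succ_self _) (by norm_num))⟩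

theorem eventually_small {p : ℕ} (hp : 0 < p) : ∃ D : ℕ, ∀ m ≥ D,
    Real.cos (Real.pi / (2 * p)) ^ m ≤ (1 / (p * (m + 1) ^ 4) : ℝ) ^ 3 / 256 := by
  have hp' : (1 : ℝ) ≤ p := by exact_mod_cast hp
  set ρ := Real.cos (Real.pi / (2 * p)) with hρ
  have pi3 := Real.pi_gt_three
  have b0 : 0 < Real.pi / (2 * p) := by positivity
  have b1 : Real.pi / (2 * p) ≤ Real.pi / 2 :=
    div_le_div_of_nonneg_left (by linarith) (by norm_num) (by linarith)
  have r0 : 0 ≤ ρ := Real.cos_nonneg_of_neg_pi_div_two_le_of_le (by linarith) b1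
  have r1 : ρ < 1 := by
    rw [hρ, ← Real.cos_zero]
    exact Real.cos_lt_cos_of_nonneg_of_le_pi le_rfl (by linarith) b0
  have h := tendsto_pow_const_mul_const_pow_of_abs_lt_one 12 (r := ρ) (by rwa [abs_of_nonneg r0])
  have h2 := h.eventually (gt_mem_nhds (show (0 : ℝ) < 1 / (256 * p ^ 3 * 2 ^ 12) by positivity))
  obtain ⟨D, hD⟩ := eventually_atTop.1 h2
  refine ⟨D + 1, fun m hm => ?_⟩
  have h3 := (hD m (by omega)).le
  have m1 : (1 : ℝ) ≤ m := by exact_mod_cast (by omega : 1 ≤ m)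
  have h4 : ((m : ℝ) + 1) ^ 12 ≤ (2 * m) ^ 12 := pow_le_pow_left₀ (by positivity) (by linarith) 12
  rw [le_div_iff₀ (by positivity)] at h3
  rw [div_pow, one_pow, div_div, le_div_iff₀ (by positivity)]
  have h5 : 0 ≤ ρ ^ m := by positivity
  calc ρ ^ m * ((p * (m + 1) ^ 4) ^ 3 * 256) = ρ ^ m * (256 * p ^ 3) * (m + 1) ^ 12 := by ring
    _ ≤ ρ ^ m * (256 * p ^ 3) * (2 * m) ^ 12 := by gcongr
    _ = m ^ 12 * ρ ^ m * (256 * p ^ 3 * 2 ^ 12) := by ring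
    _ ≤ 1 := h3

theorem bounded_columns {p : ℕ} (hp : 0 < p) : ∃ N0 : ℕ, ∀ N ≥ N0, ∀ (k : ℕ)
    (A : Fin N → Fin N → Prop) [DecidableRel A] (col : Fin N → ℕ), N ≤ p * k → Cyc A k p col →
    ∃ m : ℕ, (∀ i j, i ≤ j → j ≤ m → cnt A i ≤ cnt A j) ∧
      ∀ i j, m ≤ i → i ≤ j → cnt A j ≤ cnt A i := by
  obtain ⟨D, hD⟩ := eventually_small hp
  set C := 2 * Cc p * 128 * 64 * p ^ 5 * 2 ^ 14 with hC
  refine ⟨(D + C + 48 * p ^ 3 + 1) ^ 8, fun N hN k A _ col hk H => ?_⟩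
  obtain ⟨m, m1, m2⟩ := exists_root N
  have m3 : D + C + 48 * p ^ 3 + 1 < m + 1 :=
    lt_of_pow_lt_pow_left₀ 8 (Nat.zero_le _) (lt_of_le_of_lt hN m2)
  have p3 : p ≤ p ^ 3 := Nat.le_self_pow (by norm_num) p
  have m4 : m * m ≤ m ^ 8 := by
    rw [← pow_two]
    exact Nat.pow_le_pow_right (by omega) (by norm_num)
  have m5 : m ≤ m * m := Nat.le_mul_self m
  have k1 : 48 * (p * p) ≤ k := by
    refine Nat.le_of_mul_le_mul_left (c := p) ?_ hp
    have : p * (48 * (p * p)) = 48 * p ^ 3 := by ring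
    omega
  have k2 : 22 * p * m ≤ m * m := Nat.mul_le_mul_right _ (by omega)
  have k3 : p ≤ p * m := Nat.le_mul_of_pos_right _ (by omega)
  have k4 : p * k ≤ p * (4 * (k / 4) + 3) := Nat.mul_le_mul_left _ (by omega)
  have k5 : m + 1 < k / 4 := by
    refine Nat.lt_of_mul_lt_mul_left (a := 4 * p) ?_
    nlinarith
  obtain ⟨W, hW⟩ : ∃ W, k / 4 = W + (m + 1) := ⟨k / 4 - (m + 1), by omega⟩
  have k6 : m ^ 8 ≤ 8 * p * W := by
    rw [hW] at k4
    nlinarith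
  have hp' : (1 : ℝ) ≤ p := by exact_mod_cast hp
  have q1 : (1 : ℝ) ≤ ((m : ℝ) + 1) ^ 4 := one_le_pow₀ (by linarith [(Nat.cast_nonneg m : (0 : ℝ) ≤ m)])
  refine H.unimodal hp k1 (M := m) (θ := 1 / (p * (m + 1) ^ 4)) (by positivity) ?_ ?_
    (hD m (by omega)) k5 ?_
  · rw [div_mul_eq_mul_div, div_le_one (by positivity)]
    nlinarith
  · have : (N : ℝ) ≤ (m + 1) ^ 8 := by exact_mod_cast m2.le
    rw [div_pow, one_pow, ← mul_div_assoc, div_le_one (by positivity)]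
    calc (N : ℝ) * p ^ 2 * 1 ≤ (m + 1) ^ 8 * p ^ 2 * 1 := by gcongr
      _ = _ := by ring
  · rw [hW, Nat.add_sub_cancel, div_pow, one_pow, div_div, div_mul_eq_mul_div, one_mul,
      le_div_iff₀ (by positivity)]
    have a1 : (m + 1) ^ 14 ≤ (2 * m) ^ 14 := Nat.pow_le_pow_left (by omega) 14
    have a2 : (m ^ 8) ^ 2 ≤ (8 * p * W) ^ 2 := Nat.pow_le_pow_left k6 2
    have a3 : 2 * Cc p * (m + 1) ^ 2 * ((p * (m + 1) ^ 4) ^ 3 * 128) ≤ W ^ 2 := by
      refine Nat.le_of_mul_le_mul_left (c := 64 * p ^ 2) ?_ (by positivity)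
      calc 64 * p ^ 2 * (2 * Cc p * (m + 1) ^ 2 * ((p * (m + 1) ^ 4) ^ 3 * 128))
          = 2 * Cc p * 128 * 64 * p ^ 5 * (m + 1) ^ 14 := by ring
        _ ≤ 2 * Cc p * 128 * 64 * p ^ 5 * (2 * m) ^ 14 := Nat.mul_le_mul_left _ a1
        _ = C * m ^ 14 := by rw [hC]; ring
        _ ≤ m * m * m ^ 14 := Nat.mul_le_mul_right _ (by omega)
        _ = (m ^ 8) ^ 2 := by ring
        _ ≤ (8 * p * W) ^ 2 := a2
        _ = 64 * p ^ 2 * W ^ 2 := by ring
    exact_mod_cast a3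

theorem cyc_gap {n k P : ℕ} (hk : 2 ≤ k) (hkn : k ≤ n) (hP : n ≤ P * k) :
    Cyc (fun i j : Fin (n + 1) => i < j ∧ ((j : ℕ) - (i : ℕ)) % k = 1) k (P + 1)
      fun v => (v : ℕ) % k where
  lt := fun _ _ h => h.1
  colk := fun _ => Nat.mod_lt _ (by omega)
  step := by
    rintro i j ⟨h1, h2⟩
    have e : (j : ℕ) = i + (j - i) := by have := Fin.lt_def.1 h1; omega
    show (j : ℕ) % k = ((i : ℕ) % k + 1) % k
    rw [e, Nat.add_mod, h2]
  size := by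
    intro r
    rw [← card_range (P + 1)]
    refine card_le_card_of_injOn (fun v => (v : ℕ) / k) (fun v _ => ?_) fun u hu v hv e => ?_
    · refine mem_coe.2 (mem_range.2 (Nat.lt_succ_of_le (Nat.div_le_of_le_mul ?_)))
      have := v.2
      rw [mul_comm]
      omega
    · apply Fin.ext
      have a := (mem_filter.1 hu).2
      have b := (mem_filter.1 hv).2
      simp only at e a b
      rw [← Nat.div_add_mod u k, ← Nat.div_add_mod v k, e, a, b]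
  path := by
    intro r hr
    refine ⟨(⟨r, by omega⟩, ⟨r + 1, by omega⟩), ⟨by simp [Fin.lt_def], ?_⟩, Nat.mod_eq_of_lt hr⟩
    show (r + 1 - r) % k = 1
    rw [Nat.add_sub_cancel_left, Nat.mod_eq_of_lt (by omega)]

end Pool.Agent.Lib.MP_64bee1_co
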