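import Pool.Agent.Lib.MP_64bee1_co.Laurent

/-!
The folding identity: the inversion enumerator of a directed graph on `Fin N` as an average of
products of symmetric steps.
-/

namespace Pool.Agent.Lib.MP_64bee1_co

open LaurentPolynomial Finset

variable {N : ℕ} (A : Fin N → Fin N → Prop) [DecidableRel A]

/-- Number of inverted edges minus number of non inverted edges. -/
def sg {β : Type} [LinearOrder β] (f : Fin N → β) : ℤ :=
  ∑ i, ∑ j, if A i j then (if f j < f i then 1 else -1) else 0

/-- Earlier out-neighbours minus earlier in-neighbours. -/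
def dg (π : Equiv.Perm (Fin N)) (v : Fin N) : ℤ :=
  (∑ u, if A v u ∧ π u < π v then 1 else 0) - ∑ u, if A u v ∧ π u < π v then 1 else 0

/-- Signed value. -/
def sv (b : Bool) (j : Fin N) : ℤ := if b then (j : ℤ) + 1 else -((j : ℤ) + 1)

/-- Sign. -/
def sn (b : Bool) : ℤ := if b then 1 else -1

theorem T_sum {ι : Type} (s : Finset ι) (f : ι → ℤ) :
    (T (∑ i ∈ s, f i) : LP) = ∏ i ∈ s, T (f i) := by
  classical
  induction s using Finset.induction_on with
  | empty => simp
  | insert a s ha ih => rw [sum_insert ha, prod_insert ha, T_add, ih]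

theorem exists_rank (g : Fin N → ℤ) (hg : Function.Injective g) :
    ∃ ρ : Equiv.Perm (Fin N), ∀ i j, ρ i < ρ j ↔ g i < g j := by
  have hm : StrictMono (g ∘ Tuple.sort g) :=
    (Tuple.monotone_sort g).strictMono_of_injective (hg.comp (Tuple.sort g).injective)
  refine ⟨(Tuple.sort g)⁻¹, fun i j => ?_⟩
  rw [← hm.lt_iff_lt]
  simp

theorem sv_inj (ε : Fin N → Bool) : Function.Injective fun j => sv (ε j) j := by
  intro i j h
  simp only [sv] at h
  apply Fin.ext
  split_ifs at h <;> omega

theorem sum_signed (ε : Fin N → Bool) :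
    ∑ π : Equiv.Perm (Fin N), (T (sg A fun v => sv (ε (π v)) (π v)) : LP) =
      ∑ w : Equiv.Perm (Fin N), T (sg A w) := by
  obtain ⟨ρ, hρ⟩ := exists_rank _ (sv_inj ε)
  rw [← Equiv.sum_comp (Equiv.mulLeft ρ) fun w : Equiv.Perm (Fin N) => (T (sg A w) : LP)]
  refine sum_congr rfl fun π _ => ?_
  congr 1
  simp only [sg, Equiv.coe_mulLeft, Equiv.Perm.coe_mul, Function.comp_apply, hρ]

theorem sg_signed (hA : ∀ i j, A i j → i ≠ j) (π : Equiv.Perm (Fin N)) (η : Fin N → Bool) :
    sg A (fun v => sv (η v) (π v)) = ∑ v, sn (η v) * dg A π v := by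
  have e : ∀ i j, (if A i j then (if sv (η j) (π j) < sv (η i) (π i) then (1 : ℤ) else -1) else 0) =
      sn (η i) * (if A i j ∧ π j < π i then 1 else 0) -
        sn (η j) * (if A i j ∧ π i < π j then 1 else 0) := by
    intro i j
    by_cases h : A i j
    · have hne : (π i : ℕ) ≠ π j := fun e => hA i j h (π.injective (Fin.ext e))
      simp only [h, true_and, if_true, sv, sn, Fin.lt_def]
      split_ifs <;> omega
    · simp [h]
  simp only [sg, e, dg, mul_sub, sum_sub_distrib, mul_sum]
  congr 1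
  exact sum_comm

theorem sum_signs (hA : ∀ i j, A i j → i ≠ j) (π : Equiv.Perm (Fin N)) :
    ∑ ε : Fin N → Bool, (T (sg A fun v => sv (ε (π v)) (π v)) : LP) = ∏ v, U (dg A π v) := by
  have e1 : ∑ ε : Fin N → Bool, (T (sg A fun v => sv (ε (π v)) (π v)) : LP) =
      ∑ η : Fin N → Bool, T (sg A fun v => sv (η v) (π v)) :=
    Fintype.sum_equiv (Equiv.arrowCongr π.symm (Equiv.refl Bool)) _ _ fun ε => by
      simp [Equiv.arrowCongr_apply]
  rw [e1]
  simp only [sg_signed A hA, T_sum]
  have := prod_univ_sum (fun _ : Fin N => (univ : Finset Bool))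
    fun v b => (T (sn b * dg A π v) : LP)
  rw [Fintype.piFinset_univ] at this
  rw [← this]
  refine prod_congr rfl fun v _ => ?_
  simp [sn, U]

theorem fold (hA : ∀ i j, A i j → i ≠ j) :
    ((2 ^ N : ℕ) : LP) * ∑ w : Equiv.Perm (Fin N), T (sg A w) =
      ∑ π : Equiv.Perm (Fin N), ∏ v, U (dg A π v) := by
  simp only [← sum_signs A hA]
  rw [sum_comm]
  simp only [sum_signed]
  simp

/-- Number of edges. -/
def ne : ℕ := (univ.filter fun p : Fin N × Fin N => A p.1 p.2).card

/-- Number of inverted edges. -/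
def iv (w : Equiv.Perm (Fin N)) : ℕ :=
  (univ.filter fun p : Fin N × Fin N => A p.1 p.2 ∧ w p.2 < w p.1).card

theorem sg_eq (w : Equiv.Perm (Fin N)) : sg A w = 2 * iv A w - ne A := by
  simp only [sg, iv, ne, card_filter, Fintype.sum_prod_type]
  push_cast
  simp only [mul_sum, ← sum_sub_distrib]
  refine sum_congr rfl fun i _ => sum_congr rfl fun j _ => ?_
  by_cases h : A i j <;> by_cases h' : w j < w i <;> simp [h, h']

theorem co_enum (t : ℕ) : co (∑ w : Equiv.Perm (Fin N), T (sg A w)) (2 * t - ne A) =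
    (univ.filter fun w : Equiv.Perm (Fin N) => iv A w = t).card := by
  rw [co_sum, card_filter]
  push_cast
  refine sum_congr rfl fun w _ => ?_
  rw [co_T, sg_eq]
  by_cases h : iv A w = t
  · rw [if_pos h, if_pos (by rw [h])]
  · rw [if_neg h, if_neg (by omega)]

theorem Uni.anti {f : LP} (hf : Uni f) {x : ℤ} (hx : -1 ≤ x) (j : ℕ) :
    co f (x + 2 * j) ≤ co f x := by
  induction j with
  | zero => simp
  | succ j ih =>
    have e : x + 2 * ((j + 1 : ℕ) : ℤ) = x + 2 * j + 2 := by push_cast; ring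
    rw [e]
    refine le_trans ?_ ih
    rcases hx.eq_or_lt with h | h
    · rcases j with _ | j
      · subst h
        have := hf.1 1
        simp at this ⊢
        omega
      · exact hf.2 _ (by push_cast; omega)
    · exact hf.2 _ (by omega)

theorem unimodal_of_uni (h : Uni (∑ w : Equiv.Perm (Fin N), T (sg A w))) :
    ∃ m : ℕ, (∀ i j : ℕ, i ≤ j → j ≤ m →
      (univ.filter fun w : Equiv.Perm (Fin N) => iv A w = i).card ≤
        (univ.filter fun w : Equiv.Perm (Fin N) => iv A w = j).card) ∧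
      ∀ i j : ℕ, m ≤ i → i ≤ j →
      (univ.filter fun w : Equiv.Perm (Fin N) => iv A w = j).card ≤
        (univ.filter fun w : Equiv.Perm (Fin N) => iv A w = i).card := by
  refine ⟨ne A / 2, fun i j hij hj => ?_, fun i j hi hij => ?_⟩
  · have h1 := h.anti (x := ne A - 2 * j) (by omega) (j - i)
    have e1 : (ne A : ℤ) - 2 * j + 2 * ((j - i : ℕ) : ℤ) = -(2 * i - ne A) := by omega
    have e2 : (ne A : ℤ) - 2 * j = -(2 * j - ne A) := by ring
    rw [e1, e2, h.1, h.1, co_enum, co_enum] at h1
    exact_mod_cast h1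
  · have h1 := h.anti (x := 2 * i - ne A) (by omega) (j - i)
    have e1 : (2 * i - ne A : ℤ) + 2 * ((j - i : ℕ) : ℤ) = 2 * j - ne A := by omega
    rw [e1, co_enum, co_enum] at h1
    exact_mod_cast h1

end Pool.Agent.Lib.MP_64bee1_co
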