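import Mathlib

/-!
Symmetric unimodal Laurent polynomials built from the factors `T d + T (-d)`.
-/

namespace Pool.Agent.Lib.MP_64bee1_co

open LaurentPolynomial

/-- Laurent polynomials with integer coefficients. -/
abbrev LP : Type := LaurentPolynomial ℤ

/-- The symmetric step of size `d`. -/
noncomputable def U (d : ℤ) : LP := T d + T (-d)

/-- Coefficient of a Laurent polynomial. -/
noncomputable def co (f : LP) (x : ℤ) : ℤ := f.coeff x

theorem co_add (f g : LP) (x : ℤ) : co (f + g) x = co f x + co g x := by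
  simp [co]

theorem co_zero (x : ℤ) : co 0 x = 0 := by simp [co]

theorem co_sum {ι : Type} (s : Finset ι) (f : ι → LP) (x : ℤ) :
    co (∑ i ∈ s, f i) x = ∑ i ∈ s, co (f i) x := by
  classical
  induction s using Finset.induction_on with
  | empty => simp [co_zero]
  | insert a s ha ih => rw [Finset.sum_insert ha, Finset.sum_insert ha, co_add, ih]

theorem co_T (n x : ℤ) : co (T n) x = if n = x then 1 else 0 := by simp [co]

theorem co_one (x : ℤ) : co 1 x = if x = 0 then 1 else 0 := by
  rw [← T_zero, co_T]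
  simp [eq_comm]

theorem co_T_mul (n : ℤ) (f : LP) (x : ℤ) : co (T n * f) x = co f (x - n) := by
  induction f using LaurentPolynomial.induction_on' with
  | add p q hp hq => rw [mul_add, co_add, co_add, hp, hq]
  | C_mul_T m a =>
    have e : (T n * (C a * T m) : LP) = C a * T (n + m) := by
      rw [T_add]; ring
    rw [e, ← single_eq_C_mul_T, ← single_eq_C_mul_T]
    simp only [co, AddMonoidAlgebra.coeff_single, Finsupp.single_apply]
    by_cases h : n + m = x
    · rw [if_pos h, if_pos (by omega)]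
    · rw [if_neg h, if_neg (by omega)]

theorem co_U_mul (d : ℤ) (f : LP) (x : ℤ) : co (U d * f) x = co f (x - d) + co f (x + d) := by
  rw [U, add_mul, co_add, co_T_mul, co_T_mul, sub_neg_eq_add]

theorem co_nat_mul (n : ℕ) (f : LP) (x : ℤ) : co ((n : LP) * f) x = n * co f x := by
  induction n with
  | zero => simp [co_zero]
  | succ n ih => rw [Nat.cast_succ, add_mul, one_mul, co_add, ih]; push_cast; ring

theorem U_neg (d : ℤ) : U (-d) = U d := by rw [U, U, neg_neg, add_comm]

theorem U_zero : U 0 = 2 := by rw [U, neg_zero, T_zero]; norm_num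

theorem U_one_sq : U 1 * U 1 = U 2 + 2 := by
  simp only [U, add_mul, mul_add, ← T_add]
  norm_num
  ring

/-- Symmetric coefficients. -/
def Sym (f : LP) : Prop := ∀ x, co f (-x) = co f x

/-- Symmetric and decreasing in steps of two away from the origin. -/
def Uni (f : LP) : Prop := Sym f ∧ ∀ x, 0 ≤ x → co f (x + 2) ≤ co f x

theorem Sym.mul_U {f : LP} (h : Sym f) (d : ℤ) : Sym (U d * f) := by
  intro x
  rw [co_U_mul, co_U_mul, ← h (x - d), ← h (x + d), add_comm]
  congr 2 <;> ring

theorem Uni.add {f g : LP} (hf : Uni f) (hg : Uni g) : Uni (f + g) := by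
  refine ⟨fun x => by rw [co_add, co_add, hf.1, hg.1], fun x hx => ?_⟩
  rw [co_add, co_add]
  have := hf.2 x hx
  have := hg.2 x hx
  omega

theorem uni_zero : Uni 0 := ⟨fun x => by rw [co_zero, co_zero], fun x _ => by simp [co_zero]⟩

theorem uni_sum {ι : Type} (s : Finset ι) (f : ι → LP) (h : ∀ i ∈ s, Uni (f i)) :
    Uni (∑ i ∈ s, f i) :=
  Finset.sum_induction f Uni (fun _ _ => Uni.add) uni_zero h

theorem Uni.nat_mul {f : LP} (hf : Uni f) (n : ℕ) : Uni ((n : LP) * f) := by
  refine ⟨fun x => by rw [co_nat_mul, co_nat_mul, hf.1], fun x hx => ?_⟩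
  rw [co_nat_mul, co_nat_mul]
  exact mul_le_mul_of_nonneg_left (hf.2 x hx) (by positivity)

theorem Uni.of_nat_mul {f : LP} {n : ℕ} (hn : 0 < n) (hf : Uni ((n : LP) * f)) : Uni f := by
  have hn' : (0 : ℤ) < n := by exact_mod_cast hn
  refine ⟨fun x => ?_, fun x hx => ?_⟩
  · have := hf.1 x
    rw [co_nat_mul, co_nat_mul] at this
    exact mul_left_cancel₀ hn'.ne' this
  · have := hf.2 x hx
    rw [co_nat_mul, co_nat_mul] at this
    exact le_of_mul_le_mul_left this hn'

theorem Uni.mul_U1 {f : LP} (hf : Uni f) : Uni (U 1 * f) := by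
  refine ⟨hf.1.mul_U 1, fun x hx => ?_⟩
  rw [co_U_mul, co_U_mul]
  have e1 : x + 2 - 1 = x + 1 := by ring
  have e2 : x + 2 + 1 = x + 1 + 2 := by ring
  rw [e1, e2]
  have h1 := hf.2 (x + 1) (by omega)
  rcases hx.eq_or_lt with h | h
  · subst h
    have := hf.1 1
    simp only [zero_sub, zero_add] at *
    omega
  · have h2 := hf.2 (x - 1) (by omega)
    have e3 : x - 1 + 2 = x + 1 := by ring
    rw [e3] at h2
    omega

/-- The two step difference. -/
noncomputable def D (f : LP) (y : ℤ) : ℤ := co f (y - 2) - co f (y + 2)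

theorem D_U2 (f : LP) (y : ℤ) : D (U 2 * f) y = D f (y - 2) + D f (y + 2) := by
  simp only [D, co_U_mul]
  ring_nf

theorem D_add (f g : LP) (y : ℤ) : D (f + g) y = D f y + D g y := by
  simp only [D, co_add]
  ring

theorem D_nat_mul (n : ℕ) (f : LP) (y : ℤ) : D ((n : LP) * f) y = n * D f y := by
  simp only [D, co_nat_mul]
  ring

theorem sym_pow (j : ℕ) : Sym (U 2 ^ j) := by
  induction j with
  | zero =>
    intro x
    simp only [pow_zero, co_one, neg_eq_zero]
  | succ j ih => rw [pow_succ']; exact ih.mul_U 2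

theorem co_pow_nonneg (j : ℕ) (x : ℤ) : 0 ≤ co (U 2 ^ j) x := by
  induction j generalizing x with
  | zero => rw [pow_zero, co_one]; split_ifs <;> omega
  | succ j ih =>
    rw [pow_succ', co_U_mul]
    have := ih (x - 2)
    have := ih (x + 2)
    omega

theorem co_pow_eq_zero (j : ℕ) (x : ℤ) (h : (x - 2 * j) % 4 ≠ 0) : co (U 2 ^ j) x = 0 := by
  induction j generalizing x with
  | zero =>
    rw [pow_zero, co_one, if_neg]
    rintro rfl
    simp at h
  | succ j ih =>
    rw [pow_succ', co_U_mul, ih, ih, add_zero] <;> push_cast at h <;> omega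

theorem D_pow (j : ℕ) (y : ℤ) : 2 * (j + 1) * D (U 2 ^ j) y = y * co (U 2 ^ (j + 1)) y := by
  induction j generalizing y with
  | zero =>
    simp only [D, pow_zero, co_one, zero_add, pow_one]
    have : co (U 2) y = co (U 2 * 1) y := by rw [mul_one]
    rw [this, co_U_mul, co_one, co_one]
    split_ifs <;> omega
  | succ j ih =>
    have h1 := ih (y - 2)
    have h2 := ih (y + 2)
    have h3 : D (U 2 ^ (j + 1)) y = D (U 2 ^ j) (y - 2) + D (U 2 ^ j) (y + 2) := by
      rw [pow_succ', D_U2]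
    have h4 : co (U 2 ^ (j + 1 + 1)) y = co (U 2 ^ (j + 1)) (y - 2) + co (U 2 ^ (j + 1)) (y + 2) := by
      rw [pow_succ' (U 2) (j + 1), co_U_mul]
    have h5 : D (U 2 ^ (j + 1)) y = co (U 2 ^ (j + 1)) (y - 2) - co (U 2 ^ (j + 1)) (y + 2) := rfl
    push_cast
    rw [h4]
    nlinarith

theorem D_pow_nonneg (j : ℕ) {y : ℤ} (hy : 0 ≤ y) : 0 ≤ D (U 2 ^ j) y := by
  have h := D_pow j y
  have h1 := mul_nonneg hy (co_pow_nonneg (j + 1) y)
  have h2 : (0 : ℤ) < 2 * (j + 1) := by positivity
  rw [← h] at h1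
  exact nonneg_of_mul_nonneg_right h1 h2 |> fun h => by nlinarith

theorem uni_U1_pow (j : ℕ) : Uni (U 1 * U 2 ^ j) := by
  refine ⟨(sym_pow j).mul_U 1, fun x hx => ?_⟩
  rw [co_U_mul, co_U_mul]
  have h := D_pow_nonneg j (y := x + 1) (by omega)
  simp only [D] at h
  have e1 : x + 2 - 1 = x + 1 := by ring
  have e2 : x + 1 - 2 = x - 1 := by ring
  have e3 : x + 1 + 2 = x + 2 + 1 := by ring
  rw [e2, e3] at h
  rw [e1]
  omega

theorem uni_monomial (i j : ℕ) : Uni (U 1 * (U 1 ^ i * U 2 ^ j)) := by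
  induction i with
  | zero => simpa using uni_U1_pow j
  | succ i ih =>
    have := ih.mul_U1
    rw [pow_succ']
    rw [mul_assoc]
    exact this

/-- Sums of products of the steps of size one and two. -/
inductive Cone : LP → Prop
  | one : Cone 1
  | zero : Cone 0
  | add {f g : LP} : Cone f → Cone g → Cone (f + g)
  | m1 {f : LP} : Cone f → Cone (U 1 * f)
  | m2 {f : LP} : Cone f → Cone (U 2 * f)

theorem Cone.mul {f g : LP} (hf : Cone f) (hg : Cone g) : Cone (f * g) := by
  induction hf with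
  | one => rwa [one_mul]
  | zero => rw [zero_mul]; exact Cone.zero
  | add _ _ h1 h2 => rw [add_mul]; exact h1.add h2
  | m1 _ h => rw [mul_assoc]; exact h.m1
  | m2 _ h => rw [mul_assoc]; exact h.m2

theorem cone_prod {ι : Type} (s : Finset ι) (f : ι → LP) (h : ∀ i ∈ s, Cone (f i)) :
    Cone (∏ i ∈ s, f i) :=
  Finset.prod_induction f Cone (fun _ _ => Cone.mul) Cone.one h

theorem cone_U {d : ℤ} (h1 : -2 ≤ d) (h2 : d ≤ 2) : Cone (U d) := by
  have a0 : Cone (U 0) := by
    rw [U_zero, ← one_add_one_eq_two]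
    exact Cone.one.add Cone.one
  have a1 : Cone (U 1) := by simpa using Cone.one.m1
  have a2 : Cone (U 2) := by simpa using Cone.one.m2
  interval_cases d
  · rw [show (-2 : ℤ) = -(2 : ℤ) from rfl, U_neg]; exact a2
  · rw [show (-1 : ℤ) = -(1 : ℤ) from rfl, U_neg]; exact a1
  · exact a0
  · exact a1
  · exact a2

theorem Cone.uni_aux {f : LP} (hf : Cone f) : ∀ i j, Uni (U 1 * (U 1 ^ i * U 2 ^ j * f)) := by
  induction hf with
  | one => intro i j; rw [mul_one]; exact uni_monomial i j
  | zero => intro i j; rw [mul_zero, mul_zero]; exact uni_zero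
  | add _ _ h1 h2 => intro i j; rw [mul_add, mul_add]; exact (h1 i j).add (h2 i j)
  | @m1 f _ h =>
    intro i j
    have e : U 1 ^ i * U 2 ^ j * (U 1 * f) = U 1 ^ (i + 1) * U 2 ^ j * f := by ring
    rw [e]
    exact h _ _
  | @m2 f _ h =>
    intro i j
    have e : U 1 ^ i * U 2 ^ j * (U 2 * f) = U 1 ^ i * U 2 ^ (j + 1) * f := by ring
    rw [e]
    exact h _ _

theorem Cone.uni {f : LP} (hf : Cone f) : Uni (U 1 * f) := by
  simpa using hf.uni_aux 0 0

end Pool.Agent.Lib.MP_64bee1_co
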