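import Pool.Agent.Lib.MP_64bee1_co.Window

/-!
The graph of gaps congruent to one modulo `k` on `n + 1 ≤ 2 k + 1` positions.
-/

namespace Pool.Agent.Lib.MP_64bee1_co

open LaurentPolynomial Finset

/-- Pairs of positions whose gap is congruent to one modulo `k`. -/
def Gap (n k : ℕ) (i j : Fin (n + 1)) : Prop := i < j ∧ ((j : ℕ) - (i : ℕ)) % k = 1

instance (n k : ℕ) : DecidableRel (Gap n k) := fun i j => by unfold Gap; infer_instance

/-- The position with index `j`. -/
def P (n j : ℕ) : Fin (n + 1) := ⟨min j n, by omega⟩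

theorem P_val {n j : ℕ} (h : j ≤ n) : (P n j : ℕ) = j := min_eq_left h

theorem P_coe {n : ℕ} (v : Fin (n + 1)) : P n v = v :=
  Fin.ext (P_val (Nat.lt_succ_iff.mp v.2))

/-- The value at index `j`. -/
def vl {n : ℕ} (π : Equiv.Perm (Fin (n + 1))) (j : ℕ) : ℕ := π (P n j)

theorem vl_ne {n : ℕ} (π : Equiv.Perm (Fin (n + 1))) {i j : ℕ} (hi : i ≤ n) (hj : j ≤ n)
    (h : i ≠ j) : vl π i ≠ vl π j := by
  intro e
  have := congrArg Fin.val (π.injective (Fin.ext e))
  rw [P_val hi, P_val hj] at this
  exact h this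

theorem gap_iff {n k : ℕ} (hk : 2 ≤ k) (hn : n ≤ 2 * k) (i j : Fin (n + 1)) :
    Gap n k i j ↔ ((j : ℕ) = i + 1 ∨ (j : ℕ) = i + k + 1) := by
  have hj := j.2
  unfold Gap
  rw [Fin.lt_def]
  constructor
  · rintro ⟨h1, h2⟩
    have h3 := Nat.div_add_mod ((j : ℕ) - i) k
    rw [h2] at h3
    rcases hq : ((j : ℕ) - i) / k with _ | _ | q
    · rw [hq] at h3; omega
    · rw [hq] at h3; omega
    · rw [hq] at h3
      have : k * 2 ≤ k * (q + 1 + 1) := Nat.mul_le_mul_left k (by omega)
      omega
  · rintro (h | h)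
    · refine ⟨by omega, ?_⟩
      rw [h, Nat.add_sub_cancel_left]
      exact Nat.mod_eq_of_lt (by omega)
    · refine ⟨by omega, ?_⟩
      have : (j : ℕ) - i = 1 + k := by omega
      rw [this, Nat.add_mod_right]
      exact Nat.mod_eq_of_lt (by omega)

theorem sum_pick {n : ℕ} (a : ℕ) (p : Fin (n + 1) → Prop) [DecidablePred p] :
    (∑ u : Fin (n + 1), if (u : ℕ) = a ∧ p u then (1 : ℤ) else 0) =
      if a ≤ n ∧ p (P n a) then 1 else 0 := by
  by_cases h : a ≤ n
  · rw [sum_eq_single (P n a)]
    · simp [P_val h, h]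
    · intro u _ hu
      rw [if_neg]
      rintro ⟨e, -⟩
      exact hu (Fin.ext (by rw [P_val h, e]))
    · simp
  · rw [if_neg (fun e => h e.1)]
    refine sum_eq_zero fun u _ => if_neg ?_
    rintro ⟨e, -⟩
    have := u.2
    omega

/-- Explicit form of the step size at index `v`. -/
def dd (n k : ℕ) (p : ℕ → ℕ) (v : ℕ) : ℤ :=
  (if v + 1 ≤ n then lt (p (v + 1)) (p v) else 0) +
    (if v + k + 1 ≤ n then lt (p (v + k + 1)) (p v) else 0) -
    ((if 1 ≤ v then lt (p (v - 1)) (p v) else 0) +
      (if k + 1 ≤ v then lt (p (v - (k + 1))) (p v) else 0))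

theorem dg_eq {n k : ℕ} (hk : 2 ≤ k) (hn : n ≤ 2 * k) (π : Equiv.Perm (Fin (n + 1)))
    (v : Fin (n + 1)) : dg (Gap n k) π v = dd n k (vl π) v := by
  have hv := v.2
  have e1 : ∀ u : Fin (n + 1), (if Gap n k v u ∧ π u < π v then (1 : ℤ) else 0) =
      (if (u : ℕ) = v + 1 ∧ π u < π v then 1 else 0) +
        (if (u : ℕ) = v + k + 1 ∧ π u < π v then 1 else 0) := by
    intro u
    simp only [gap_iff hk hn]
    by_cases h : π u < π v
    · simp only [h, and_true]
      split_ifs <;> omega
    · simp [h]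
  have e2 : ∀ u : Fin (n + 1), (if Gap n k u v ∧ π u < π v then (1 : ℤ) else 0) =
      (if (u : ℕ) = v - 1 ∧ (1 ≤ (v : ℕ) ∧ π u < π v) then 1 else 0) +
        (if (u : ℕ) = v - (k + 1) ∧ (k + 1 ≤ (v : ℕ) ∧ π u < π v) then 1 else 0) := by
    intro u
    simp only [gap_iff hk hn]
    by_cases h : π u < π v
    · simp only [h, and_true]
      split_ifs <;> omega
    · simp [h]
  simp only [dg, e1, e2, sum_add_distrib]
  rw [sum_pick, sum_pick, sum_pick, sum_pick]
  simp only [dd, lt, vl, P_coe, Fin.lt_def]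
  have a1 : (v : ℕ) - 1 ≤ n := by omega
  have a2 : (v : ℕ) - (k + 1) ≤ n := by omega
  simp only [a1, a2, true_and]
  congr 1
  · congr 1
    · split_ifs <;> simp_all
    · split_ifs <;> simp_all
  · congr 1
    · split_ifs <;> simp_all
    · split_ifs <;> simp_all

/-- The transposition of the two middle positions of the window starting at `a`. -/
def sw (n a : ℕ) : Equiv.Perm (Fin (n + 1)) := Equiv.swap (P n (a + 1)) (P n (a + 2))

/-- The corresponding map on indices. -/
def sx (a j : ℕ) : ℕ := if j = a + 1 then a + 2 else if j = a + 2 then a + 1 else j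

theorem vl_sw {n a : ℕ} (ha : a + 2 ≤ n) (π : Equiv.Perm (Fin (n + 1))) {j : ℕ} (hj : j ≤ n) :
    vl (π * sw n a) j = vl π (sx a j) := by
  simp only [vl, sw, sx, Equiv.Perm.coe_mul, Function.comp_apply, Equiv.swap_apply_def,
    Fin.ext_iff, P_val hj, P_val ha, P_val (show a + 1 ≤ n by omega)]
  split_ifs <;> rfl

/-- The step at index `v` as a Laurent polynomial. -/
noncomputable def st (n k : ℕ) (π : Equiv.Perm (Fin (n + 1))) (v : ℕ) : LP :=
  U (dd n k (vl π) v)

theorem st_local {n k a : ℕ} (h1 : n - k ≤ a) (h2 : a + 3 ≤ k) (hkn : k < n)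
    (π : Equiv.Perm (Fin (n + 1))) {v : ℕ} (hv : v ≤ n) (hva : v < a ∨ a + 3 < v) :
    st n k (π * sw n a) v = st n k π v := by
  have ha : a + 2 ≤ n := by omega
  have k0 : ∀ j, j ≤ n → j ≠ a + 1 → j ≠ a + 2 → vl (π * sw n a) j = vl π j := by
    intro j hj j1 j2
    rw [vl_sw ha π hj, sx, if_neg j1, if_neg j2]
  simp only [st, dd]
  rw [k0 v hv (by omega) (by omega)]
  congr 3
  · split_ifs with h
    · rw [k0 _ h (by omega) (by omega)]
    · rfl
  · split_ifs with h
    · rw [k0 _ h (by omega) (by omega)]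
    · rfl
  · split_ifs with h
    · rw [k0 _ (by omega) (by omega) (by omega)]
    · rfl
  · split_ifs with h
    · rw [k0 _ (by omega) (by omega) (by omega)]
    · rfl

/-- The product of the steps of the window starting at `a`. -/
noncomputable def om (n k a : ℕ) (π : Equiv.Perm (Fin (n + 1))) : LP :=
  st n k π a * st n k π (a + 1) * st n k π (a + 2) * st n k π (a + 3)

theorem om_eq {n k a : ℕ} (h1 : n - k ≤ a) (h2 : a + 3 ≤ k) (hkn : k < n)
    (π : Equiv.Perm (Fin (n + 1))) : om n k a π =
      win (vl π (a - 1)) (vl π a) (vl π (a + 1)) (vl π (a + 2)) (vl π (a + 3)) (vl π (a + 4)) := by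
  have f : ∀ v, a ≤ v → v ≤ a + 3 → dd n k (vl π) v =
      lt (vl π (v + 1)) (vl π v) - lt (vl π (v - 1)) (vl π v) := by
    intro v v1 v2
    simp only [dd]
    rw [if_pos (by omega), if_neg (by omega), if_pos (by omega), if_neg (by omega)]
    simp
  simp only [om, st, win]
  rw [f a (by omega) (by omega), f (a + 1) (by omega) (by omega), f (a + 2) (by omega) (by omega),
    f (a + 3) (by omega) (by omega)]
  rfl

theorem om_swap {n k a : ℕ} (h1 : n - k ≤ a) (h2 : a + 3 ≤ k) (hkn : k < n)
    (π : Equiv.Perm (Fin (n + 1))) :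
    Q (om n k a π + om n k a (π * sw n a)) ∨
      om n k a π + om n k a (π * sw n a) = 4 * (U 2 + 6) := by
  have ha : a + 2 ≤ n := by omega
  rw [om_eq h1 h2 hkn, om_eq h1 h2 hkn, vl_sw ha π (by omega), vl_sw ha π (by omega),
    vl_sw ha π (by omega), vl_sw ha π (by omega), vl_sw ha π (by omega), vl_sw ha π (by omega)]
  have s1 : sx a (a - 1) = a - 1 := by simp only [sx]; split_ifs <;> omega
  have s2 : sx a a = a := by simp only [sx]; split_ifs <;> omega
  have s3 : sx a (a + 1) = a + 2 := by simp only [sx]; split_ifs <;> omega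
  have s4 : sx a (a + 2) = a + 1 := by simp only [sx]; split_ifs <;> omega
  have s5 : sx a (a + 3) = a + 3 := by simp only [sx]; split_ifs <;> omega
  have s6 : sx a (a + 4) = a + 4 := by simp only [sx]; split_ifs <;> omega
  rw [s1, s2, s3, s4, s5, s6]
  apply win_swap <;> apply vl_ne <;> omega

theorem om_local {n k a b : ℕ} (h1 : n - k ≤ a) (h2 : a + 3 ≤ k) (hkn : k < n) (hb : b + 3 < a)
    (π : Equiv.Perm (Fin (n + 1))) : om n k b (π * sw n a) = om n k b π := by
  simp only [om]
  rw [st_local h1 h2 hkn π (by omega) (by omega), st_local h1 h2 hkn π (by omega) (by omega),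
    st_local h1 h2 hkn π (by omega) (by omega), st_local h1 h2 hkn π (by omega) (by omega)]

theorem sw_comm {n a b : ℕ} (ha : a + 2 ≤ n) (hb : b + 3 < a) :
    sw n a * sw n b = sw n b * sw n a := by
  have p1 : (P n (a + 1) : ℕ) = a + 1 := P_val (by omega)
  have p2 : (P n (a + 2) : ℕ) = a + 2 := P_val (by omega)
  have p3 : (P n (b + 1) : ℕ) = b + 1 := P_val (by omega)
  have p4 : (P n (b + 2) : ℕ) = b + 2 := P_val (by omega)
  refine (Equiv.Perm.disjoint_swap_swap ?_).commute.eq
  simp only [List.nodup_cons, List.mem_cons, List.not_mem_nil, Fin.ext_iff, p1, p2, p3, p4]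
  simp
  omega

/-- Indices outside the first `j` windows. -/
def out (n k j : ℕ) : Finset ℕ :=
  (range (n + 1)).filter fun v => v < n - k ∨ n - k + 4 * j ≤ v

/-- The product of the steps outside the first `j` windows. -/
noncomputable def rest (n k j : ℕ) (π : Equiv.Perm (Fin (n + 1))) : LP :=
  ∏ v ∈ out n k j, st n k π v

theorem rest_succ {n k j : ℕ} (h : n - k + 4 * j + 3 ≤ n) (π : Equiv.Perm (Fin (n + 1))) :
    rest n k j π = rest n k (j + 1) π * om n k (n - k + 4 * j) π := by
  have e : out n k j = insert (n - k + 4 * j) (insert (n - k + 4 * j + 1)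
      (insert (n - k + 4 * j + 2) (insert (n - k + 4 * j + 3) (out n k (j + 1))))) := by
    ext v
    simp only [out, mem_insert, mem_filter, mem_range]
    omega
  rw [rest, e, prod_insert, prod_insert, prod_insert, prod_insert, rest, om]
  · ring
  all_goals
    simp only [out, mem_insert, mem_filter, mem_range]
    omega

/-- The sum over the orbit under the first `j` transpositions. -/
noncomputable def orb (n k : ℕ) : ℕ → Equiv.Perm (Fin (n + 1)) → LP
  | 0, π => rest n k 0 π
  | j + 1, π => orb n k j π + orb n k j (π * sw n (n - k + 4 * j))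

theorem sum_orb (n k j : ℕ) : ∑ π, orb n k j π = ((2 ^ j : ℕ) : LP) * ∑ π, rest n k 0 π := by
  induction j with
  | zero => simp [orb]
  | succ j ih =>
    simp only [orb, sum_add_distrib]
    have := Equiv.sum_comp (Equiv.mulRight (sw n (n - k + 4 * j))) (orb n k j)
    simp only [Equiv.coe_mulRight] at this
    rw [this, ih]
    push_cast
    ring

theorem orb_eq {n k : ℕ} (hkn : k < n) (j : ℕ) (hj : n - k + 4 * j ≤ k + 1)
    (π : Equiv.Perm (Fin (n + 1))) : orb n k j π = rest n k j π *
      ∏ s ∈ range j, (om n k (n - k + 4 * s) π +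
        om n k (n - k + 4 * s) (π * sw n (n - k + 4 * s))) := by
  induction j generalizing π with
  | zero => simp [orb]
  | succ j ih =>
    have h1 : n - k ≤ n - k + 4 * j := by omega
    have h2 : n - k + 4 * j + 3 ≤ k := by omega
    rw [orb, ih (by omega), ih (by omega), rest_succ (by omega), rest_succ (j := j) (by omega),
      prod_range_succ]
    have e1 : rest n k (j + 1) (π * sw n (n - k + 4 * j)) = rest n k (j + 1) π := by
      refine prod_congr rfl fun v hv => ?_
      simp only [out, mem_filter, mem_range] at hv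
      exact st_local h1 h2 hkn π (by omega) (by omega)
    have e2 : ∏ s ∈ range j, (om n k (n - k + 4 * s) (π * sw n (n - k + 4 * j)) +
        om n k (n - k + 4 * s) (π * sw n (n - k + 4 * j) * sw n (n - k + 4 * s))) =
        ∏ s ∈ range j, (om n k (n - k + 4 * s) π +
          om n k (n - k + 4 * s) (π * sw n (n - k + 4 * s))) := by
      refine prod_congr rfl fun s hs => ?_
      have hs' := mem_range.mp hs
      rw [mul_assoc, sw_comm (by omega) (by omega), ← mul_assoc,
        om_local h1 h2 hkn (by omega), om_local h1 h2 hkn (by omega)]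
    rw [e1, e2]
    ring

theorem lt_spec (x y : ℕ) : (lt x y = 1 ∧ x < y) ∨ (lt x y = 0 ∧ y ≤ x) := by
  simp only [lt]
  split_ifs <;> omega

theorem dd_le (n k : ℕ) (p : ℕ → ℕ) (v : ℕ) : (dd n k p v).natAbs ≤ 2 := by
  have a1 := lt_spec (p (v + 1)) (p v)
  have a2 := lt_spec (p (v + k + 1)) (p v)
  have a3 := lt_spec (p (v - 1)) (p v)
  have a4 := lt_spec (p (v - (k + 1))) (p v)
  simp only [dd]
  split_ifs <;> omega

theorem dd_two {n k : ℕ} (hn : n ≤ 2 * k) (p : ℕ → ℕ) {v : ℕ} (h : (dd n k p v).natAbs = 2) :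
    (v + k + 1 ≤ n ∧ p (v + k + 1) < p v) ∨ (k + 1 ≤ v ∧ p (v - (k + 1)) < p v) := by
  have a1 := lt_spec (p (v + 1)) (p v)
  have a2 := lt_spec (p (v + k + 1)) (p v)
  have a3 := lt_spec (p (v - 1)) (p v)
  have a4 := lt_spec (p (v - (k + 1))) (p v)
  simp only [dd] at h
  split_ifs at h <;> omega

theorem card_two {n k : ℕ} (hn : n ≤ 2 * k) (p : ℕ → ℕ) (s : Finset ℕ) (hs : ∀ v ∈ s, v ≤ n) :
    (s.filter fun v => (dd n k p v).natAbs = 2).card ≤ n - k := by
  rw [← card_range (n - k)]
  refine card_le_card_of_injOn (fun v => if v ≤ k then v else v - (k + 1)) ?_ ?_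
  · intro v hv
    obtain ⟨h1, h2⟩ := mem_filter.mp (mem_coe.mp hv)
    have := dd_two hn p h2
    have := hs v h1
    simp only [coe_range, Set.mem_Iio]
    split_ifs <;> omega
  · intro v hv w hw e
    obtain ⟨h1, h2⟩ := mem_filter.mp (mem_coe.mp hv)
    obtain ⟨h3, h4⟩ := mem_filter.mp (mem_coe.mp hw)
    have a := dd_two hn p h2
    have b := dd_two hn p h4
    have := hs v h1
    have := hs w h3
    simp only at e
    split_ifs at e with c1 c2 c2
    · exact e
    · have e' : w = v + k + 1 := by omega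
      subst e'
      have : v + k + 1 - (k + 1) = v := by omega
      rw [this] at b
      omega
    · have e' : v = w + k + 1 := by omega
      subst e'
      have : w + k + 1 - (k + 1) = w := by omega
      rw [this] at a
      omega
    · omega

theorem uni_enum {n k m : ℕ} (hk : 2 ≤ k) (hkn : k < n) (hn : n ≤ 2 * k)
    (h1 : n + 4 * m ≤ 2 * k + 1) (h2 : 3 * 5 ^ m + (3 * (n - k) + 4) * 4 ^ m ≤ 7 ^ m) :
    Uni (∑ w : Equiv.Perm (Fin (n + 1)), T (sg (Gap n k) w)) := by
  refine Uni.of_nat_mul (n := 2 ^ (n + 1)) (by positivity) ?_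
  rw [fold (Gap n k) fun i j h => h.1.ne]
  have e : ∀ π : Equiv.Perm (Fin (n + 1)), ∏ v, U (dg (Gap n k) π v) = rest n k 0 π := by
    intro π
    have : out n k 0 = range (n + 1) := by
      ext v
      simp only [out, mem_filter, mem_range]
      omega
    rw [rest, this, ← Fin.prod_univ_eq_prod_range (st n k π) (n + 1)]
    exact prod_congr rfl fun v _ => by rw [dg_eq hk hn, st]
  simp only [e]
  refine Uni.of_nat_mul (n := 2 ^ m) (by positivity) ?_
  rw [← sum_orb]
  refine uni_sum _ _ fun π _ => ?_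
  rw [orb_eq hkn m (by omega)]
  refine uni_combine (card_two hn (vl π) (out n k m) fun v hv => ?_) h2
    (prod_rest (out n k m) (dd n k (vl π)) fun v _ => dd_le n k _ v)
    (prod_windows m _ fun s hs => om_swap (by omega) (by omega) hkn π)
  simp only [out, mem_filter, mem_range] at hv
  omega

end Pool.Agent.Lib.MP_64bee1_co
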