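import Pool.Agent.Lib.MP_64bee1_co.Main

/-!
For odd `k` and `k < n ≤ 2 k` the number of edges is odd, so every folded class contains a unit
step, and all steps have size at most two.
-/

namespace Pool.Agent.Lib.MP_64bee1_co

open LaurentPolynomial Finset

theorem sum_dg {N : ℕ} (A : Fin N → Fin N → Prop) [DecidableRel A] (hA : ∀ i j, A i j → i ≠ j)
    (π : Equiv.Perm (Fin N)) : ∑ v, dg A π v = 2 * iv A π - ne A := by
  rw [← sg_eq]
  have h := sg_signed A hA π fun _ => true
  simp only [sn, if_true, one_mul] at h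
  rw [← h]
  simp only [sg, sv, if_true, add_lt_add_iff_right, Nat.cast_lt, Fin.lt_def]

theorem sum_ind (n a : ℕ) :
    (∑ i : Fin (n + 1), if (i : ℕ) + a ≤ n then (1 : ℤ) else 0) = ((n + 1 - a : ℕ) : ℤ) := by
  rw [Fin.sum_univ_eq_sum_range (fun i => if i + a ≤ n then (1 : ℤ) else 0) (n + 1), ← sum_filter]
  have e : (range (n + 1)).filter (fun i => i + a ≤ n) = range (n + 1 - a) := by
    ext i
    simp only [mem_filter, mem_range]
    omega
  rw [e]
  simp

theorem ne_gap {n k : ℕ} (hk : 2 ≤ k) (hkn : k < n) (hn : n ≤ 2 * k) :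
    (ne (Gap n k) : ℤ) = 2 * n - k := by
  have e1 : ∀ i j : Fin (n + 1), (if Gap n k i j then (1 : ℤ) else 0) =
      (if (j : ℕ) = i + 1 ∧ True then 1 else 0) + (if (j : ℕ) = i + (k + 1) ∧ True then 1 else 0) := by
    intro i j
    simp only [gap_iff hk hn, and_true]
    split_ifs <;> omega
  simp only [ne, card_filter, Fintype.sum_prod_type]
  push_cast
  simp only [e1, sum_add_distrib]
  have e2 : ∀ (a : ℕ) (i : Fin (n + 1)),
      (∑ j : Fin (n + 1), if (j : ℕ) = i + a ∧ True then (1 : ℤ) else 0) =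
        if (i : ℕ) + a ≤ n then 1 else 0 := by
    intro a i
    rw [sum_pick (i + a) (fun _ => True)]
    simp
  simp only [e2, sum_ind]
  omega

theorem uni_odd {n k : ℕ} (hk : 2 ≤ k) (hodd : Odd k) (hkn : k < n) (hn : n ≤ 2 * k) :
    Uni (∑ w : Equiv.Perm (Fin (n + 1)), T (sg (Gap n k) w)) := by
  refine Uni.of_nat_mul (n := 2 ^ (n + 1)) (by positivity) ?_
  have hA : ∀ i j, Gap n k i j → i ≠ j := fun i j h => h.1.ne
  rw [fold (Gap n k) hA]
  refine uni_sum _ _ fun π _ => ?_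
  have hb : ∀ v, (dg (Gap n k) π v).natAbs ≤ 2 := fun v => by
    rw [dg_eq hk hn]
    exact dd_le _ _ _ _
  have hex : ∃ v, ¬ (2 : ℤ) ∣ dg (Gap n k) π v := by
    by_contra hc
    push Not at hc
    have h2 : (2 : ℤ) ∣ ∑ v, dg (Gap n k) π v := dvd_sum fun v _ => hc v
    rw [sum_dg _ hA, ne_gap hk hkn hn] at h2
    obtain ⟨r, hr⟩ := hodd
    omega
  obtain ⟨v, hv⟩ := hex
  have h1 : U (dg (Gap n k) π v) = U 1 := by
    have := hb v
    have h3 : dg (Gap n k) π v = 1 ∨ dg (Gap n k) π v = -1 := by omega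
    rcases h3 with h3 | h3
    · rw [h3]
    · rw [h3, U_neg]
  rw [← mul_prod_erase _ _ (mem_univ v), h1]
  refine Cone.uni (cone_prod _ _ fun u _ => cone_U ?_ ?_)
  · have := hb u
    omega
  · have := hb u
    omega

end Pool.Agent.Lib.MP_64bee1_co
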