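import Pool.Agent.Lib.MP_64bee1_co.Laurent

/-!
Unimodality of `(1 + q^2)^e (1 + 6 q + q^2)^m` for `m` of the order of `log e`.
-/

namespace Pool.Agent.Lib.MP_64bee1_co

open LaurentPolynomial

/-- Vanishing of the coefficients of odd index. -/
def Ev (f : LP) : Prop := ∀ x, x % 2 = 1 → co f x = 0

theorem Ev.mul_U2 {f : LP} (h : Ev f) : Ev (U 2 * f) := by
  intro x hx
  rw [co_U_mul, h _ (by omega), h _ (by omega), add_zero]

theorem ev_pow (j : ℕ) : Ev (U 2 ^ j) := fun x hx => co_pow_eq_zero j x (by omega)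

theorem Sym.D_neg {f : LP} (h : Sym f) (y : ℤ) : D f (-y) = -D f y := by
  simp only [D]
  rw [← h (y - 2), ← h (y + 2)]
  have e1 : -y - 2 = -(y + 2) := by ring
  have e2 : -y + 2 = -(y - 2) := by ring
  rw [e1, e2]
  ring

theorem Sym.D_zero {f : LP} (h : Sym f) : D f 0 = 0 := by
  have := h.D_neg 0
  rw [neg_zero] at this
  omega

theorem D_two_step (e : ℕ) {y : ℤ} (hy : 2 ≤ y) (he : y % 2 = 0) :
    D (U 2 ^ e) y ≤ D (U 2 ^ (e + 2)) y := by
  rw [pow_succ', pow_succ', D_U2, D_U2, D_U2]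
  have e1 : y - 2 + 2 = y := by ring
  have e2 : y + 2 - 2 = y := by ring
  rw [e1, e2]
  have h1 := D_pow_nonneg e (y := y) (by omega)
  have h2 := D_pow_nonneg e (y := y + 2 + 2) (by omega)
  rcases hy.eq_or_lt with h | h
  · subst h
    have := (sym_pow e).D_neg 2
    norm_num at *
    omega
  · have h3 := D_pow_nonneg e (y := y - 2 - 2) (by omega)
    omega

/-- The quotient of the good part of the orbit sum. -/
noncomputable def H (e : ℕ) : ℕ → LP
  | 0 => 0
  | m + 1 => U 2 * H e m + ((6 : ℕ) : LP) * H e m + ((4 ^ m : ℕ) : LP) * U 2 ^ e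

theorem orbit_eq (e m : ℕ) : U 2 ^ e * (U 2 + 6) ^ m =
    ((4 ^ m : ℕ) : LP) * U 2 ^ e + (U 2 * H e m + ((2 : ℕ) : LP) * H e m) := by
  induction m with
  | zero => simp [H]
  | succ m ih =>
    rw [pow_succ, ← mul_assoc, ih, H]
    push_cast
    ring

theorem sym_add {f g : LP} (hf : Sym f) (hg : Sym g) : Sym (f + g) := fun x => by
  rw [co_add, co_add, hf, hg]

theorem sym_nat_mul {f : LP} (hf : Sym f) (n : ℕ) : Sym ((n : LP) * f) := fun x => by
  rw [co_nat_mul, co_nat_mul, hf]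

theorem sym_H (e m : ℕ) : Sym (H e m) := by
  induction m with
  | zero => intro x; simp [H, co_zero]
  | succ m ih => exact sym_add (sym_add (ih.mul_U 2) (sym_nat_mul ih 6)) (sym_nat_mul (sym_pow e) _)

theorem ev_H (e m : ℕ) : Ev (H e m) := by
  induction m with
  | zero => intro x _; simp [H, co_zero]
  | succ m ih =>
    intro x hx
    rw [H, co_add, co_add, ih.mul_U2 x hx, co_nat_mul, co_nat_mul, ih x hx, ev_pow e x hx]
    simp

theorem ab_nonneg (m : ℕ) : (0 : ℤ) ≤ 7 ^ m - 3 * 5 ^ m + 2 * 4 ^ m ∧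
    (0 : ℤ) ≤ 7 ^ m + 3 * 5 ^ m - 4 * 4 ^ m := by
  induction m with
  | zero => norm_num
  | succ m ih =>
    have : (0 : ℤ) ≤ 4 ^ m := by positivity
    simp only [pow_succ]
    constructor <;> linarith [ih.1, ih.2]

theorem D_H (e m : ℕ) : ∀ y : ℤ, 0 ≤ y → y % 2 = 0 →
    (7 ^ m - 3 * 5 ^ m + 2 * 4 ^ m) * D (U 2 ^ (e + 1)) y +
      (7 ^ m + 3 * 5 ^ m - 4 * 4 ^ m) * D (U 2 ^ e) y ≤ 6 * D (H e m) y := by
  induction m with
  | zero => intro y _ _; simp [H, D, co_zero]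
  | succ m ih =>
    intro y hy he
    rcases hy.eq_or_lt with h | h
    · subst h
      rw [(sym_pow _).D_zero, (sym_pow _).D_zero, (sym_H _ _).D_zero]
      simp
    · have h1 := ih (y - 2) (by omega) (by omega)
      have h2 := ih (y + 2) (by omega) (by omega)
      have h3 := ih y hy he
      have h4 : D (U 2 ^ (e + 1)) y = D (U 2 ^ e) (y - 2) + D (U 2 ^ e) (y + 2) := by
        rw [pow_succ', D_U2]
      have h5 : D (U 2 ^ (e + 2)) y = D (U 2 ^ (e + 1)) (y - 2) + D (U 2 ^ (e + 1)) (y + 2) := by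
        rw [pow_succ' (U 2) (e + 1), D_U2]
      have h6 := D_two_step e (y := y) (by omega) he
      have h7 := mul_le_mul_of_nonneg_left h6 (ab_nonneg m).1
      rw [H, D_add, D_add, D_U2, D_nat_mul, D_nat_mul]
      push_cast
      simp only [pow_succ (7 : ℤ), pow_succ (5 : ℤ), pow_succ (4 : ℤ)]
      rw [h5] at h7
      rw [h4] at h3 ⊢
      nlinarith

theorem uni_orbit {e m : ℕ} (h : 3 * 5 ^ m + (3 * e + 4) * 4 ^ m ≤ 7 ^ m) :
    Uni (U 2 ^ e * (U 2 + 6) ^ m) := by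
  rw [orbit_eq]
  refine ⟨sym_add (sym_nat_mul (sym_pow e) _)
    (sym_add ((sym_H e m).mul_U 2) (sym_nat_mul (sym_H e m) 2)), fun x hx => ?_⟩
  simp only [co_add, co_nat_mul, co_U_mul]
  rcases Int.emod_two_eq_zero_or_one x with he | he
  · have k1 := D_H e m x hx he
    have k2 := D_H e m (x + 2) (by omega) (by omega)
    have a1 := (ab_nonneg m).1
    have a2 := (ab_nonneg m).2
    have d1 := D_pow_nonneg (e + 1) hx
    have d2 := D_pow_nonneg e hx
    have d3 := D_pow_nonneg (e + 1) (y := x + 2) (by omega)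
    have d4 := D_pow_nonneg e (y := x + 2) (by omega)
    have p1 : 0 ≤ D (H e m) x := by nlinarith [mul_nonneg a1 d1, mul_nonneg a2 d2]
    have p2 : (7 ^ m - 3 * 5 ^ m + 2 * 4 ^ m) * D (U 2 ^ (e + 1)) (x + 2) ≤
        6 * D (H e m) (x + 2) := by nlinarith [mul_nonneg a2 d4]
    have q1 := D_pow (e + 1) (x + 2)
    have q2 : 2 * co (U 2 ^ e) (x + 2) ≤ co (U 2 ^ (e + 1 + 1)) (x + 2) := by
      rw [pow_succ', pow_succ', co_U_mul, co_U_mul, co_U_mul]
      have e1 : x + 2 - 2 + 2 = x + 2 := by ring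
      have e2 : x + 2 + 2 - 2 = x + 2 := by ring
      rw [e1, e2]
      have := co_pow_nonneg e (x + 2 - 2 - 2)
      have := co_pow_nonneg e (x + 2 + 2 + 2)
      omega
    have b0 := co_pow_nonneg e (x + 2)
    have b1 := co_pow_nonneg e x
    have b2 := co_pow_nonneg (e + 1 + 1) (x + 2)
    have q3 : 2 * co (U 2 ^ e) (x + 2) ≤ ((e : ℤ) + 2) * D (U 2 ^ (e + 1)) (x + 2) := by
      push_cast at q1
      nlinarith
    have hz : (3 : ℤ) * (e + 2) * 4 ^ m ≤ 7 ^ m - 3 * 5 ^ m + 2 * 4 ^ m := by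
      have : ((3 * 5 ^ m + (3 * e + 4) * 4 ^ m : ℕ) : ℤ) ≤ ((7 ^ m : ℕ) : ℤ) := by exact_mod_cast h
      push_cast at this
      linarith
    have c4 : (0 : ℤ) < 4 ^ m := by positivity
    have q4 : 4 ^ m * co (U 2 ^ e) (x + 2) ≤ D (H e m) (x + 2) := by
      have r1 := mul_le_mul_of_nonneg_right hz d3
      have r2 := mul_le_mul_of_nonneg_left q3 c4.le
      nlinarith
    have q5 := mul_nonneg c4.le b1
    simp only [D] at p1 q4
    have e1 : x + 2 - 2 = x := by ring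
    rw [e1] at q4 ⊢
    push_cast
    linarith
  · rw [ev_pow e x he, ev_pow e (x + 2) (by omega), ev_H e m x he, ev_H e m (x + 2) (by omega),
      ev_H e m (x - 2) (by omega), ev_H e m (x + 2 - 2) (by omega),
      ev_H e m (x + 2 + 2) (by omega)]

end Pool.Agent.Lib.MP_64bee1_co
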