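import Pool.Agent.Lib.MP_64bee1_co.Fold

/-!
Quantitative unimodality of a product of symmetric steps that contains many steps of size one.
-/

namespace Pool.Agent.Lib.MP_64bee1_co

open LaurentPolynomial Finset

variable {ι : Type} [DecidableEq ι] (d : ι → ℤ)

theorem sym_prod (S : Finset ι) : Sym (∏ v ∈ S, U (d v)) := by
  induction S using Finset.induction_on with
  | empty => intro x; simp only [prod_empty, co_one, neg_eq_zero]
  | insert a s ha ih => rw [prod_insert ha]; exact ih.mul_U _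

theorem co_prod_bound (S : Finset ι) (x : ℤ) :
    0 ≤ co (∏ v ∈ S, U (d v)) x ∧ co (∏ v ∈ S, U (d v)) x ≤ 2 ^ S.card := by
  induction S using Finset.induction_on generalizing x with
  | empty => simp only [prod_empty, co_one]; split_ifs <;> simp
  | insert a s ha ih =>
    rw [prod_insert ha, co_U_mul, card_insert_of_notMem ha, pow_succ]
    have h1 := ih (x - d a)
    have h2 := ih (x + d a)
    omega

theorem co_prod_parity (S : Finset ι) (x : ℤ) (h : (x - ∑ v ∈ S, d v) % 2 ≠ 0) :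
    co (∏ v ∈ S, U (d v)) x = 0 := by
  induction S using Finset.induction_on generalizing x with
  | empty =>
    simp only [prod_empty, co_one]
    rw [if_neg]
    rintro rfl
    simp at h
  | insert a s ha ih =>
    rw [sum_insert ha] at h
    rw [prod_insert ha, co_U_mul, ih, ih, add_zero] <;> omega

theorem co_prod_integral (S : Finset ι) (x : ℤ) :
    (co (∏ v ∈ S, U (d v)) x : ℝ) * Real.pi =
      2 ^ S.card * ∫ t in (0 : ℝ)..Real.pi, (∏ v ∈ S, Real.cos (d v * t)) * Real.cos (x * t) := by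
  induction S using Finset.induction_on generalizing x with
  | empty =>
    simp only [prod_empty, co_one, card_empty, pow_zero, one_mul]
    split_ifs with h
    · subst h; simp
    · have hx : (x : ℝ) ≠ 0 := by exact_mod_cast h
      rw [intervalIntegral.integral_comp_mul_left (fun t => Real.cos t) hx]
      simp [Real.sin_int_mul_pi]
  | insert a s ha ih =>
    rw [prod_insert ha, co_U_mul, card_insert_of_notMem ha, pow_succ]
    push_cast
    rw [add_mul, ih, ih, ← mul_add, mul_assoc, ← intervalIntegral.integral_add,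
      ← intervalIntegral.integral_const_mul (2 : ℝ)]
    · congr 2
      funext t
      rw [prod_insert ha]
      push_cast
      rw [sub_mul, add_mul, Real.cos_sub, Real.cos_add]
      ring
    · exact Continuous.intervalIntegrable (by fun_prop) _ _
    · exact Continuous.intervalIntegrable (by fun_prop) _ _

theorem one_sub_sum_le_prod (c : ι → ℝ) (S : Finset ι) (h0 : ∀ v ∈ S, 0 ≤ c v)
    (h1 : ∀ v ∈ S, c v ≤ 1) : 1 - ∑ v ∈ S, (1 - c v) ≤ ∏ v ∈ S, c v := by
  induction S using Finset.induction_on with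
  | empty => simp
  | insert a s ha ih =>
    rw [prod_insert ha, sum_insert ha]
    have i1 := ih (fun v hv => h0 v (mem_insert_of_mem hv)) (fun v hv => h1 v (mem_insert_of_mem hv))
    have a0 := h0 a (mem_insert_self _ _)
    have a1 := h1 a (mem_insert_self _ _)
    have p1 : ∏ v ∈ s, c v ≤ 1 :=
      prod_le_one (fun v hv => h0 v (mem_insert_of_mem hv)) (fun v hv => h1 v (mem_insert_of_mem hv))
    nlinarith

theorem cos_step_nonneg {p : ℕ} (hp : 0 < p) {e : ℤ} (he : |e| ≤ p) {t : ℝ} (h0 : 0 ≤ t)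
    (h1 : t ≤ Real.pi / (2 * p)) : 0 ≤ Real.cos (e * t) := by
  have hp' : (0 : ℝ) < p := by exact_mod_cast hp
  have he' : |(e : ℝ)| ≤ p := by exact_mod_cast he
  have h2 : (p : ℝ) * t ≤ Real.pi / 2 := by
    rw [le_div_iff₀ (by positivity)] at h1
    linarith
  have h3 : |e * t| ≤ Real.pi / 2 := by
    rw [abs_mul, abs_of_nonneg h0]
    exact le_trans (mul_le_mul_of_nonneg_right he' h0) h2
  exact Real.cos_nonneg_of_neg_pi_div_two_le_of_le (abs_le.1 h3).1 (abs_le.1 h3).2

/-- The integrand of the central estimate. -/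
noncomputable def Fi (S : Finset ι) (x : ℤ) (t : ℝ) : ℝ :=
  (∏ v ∈ S, Real.cos (d v * t)) * (2 * Real.sin t * Real.sin ((x + 1) * t))

omit [DecidableEq ι] in
theorem Fi_cont (S : Finset ι) (x : ℤ) : Continuous (Fi d S x) := by
  unfold Fi
  fun_prop

theorem diff_integral (S : Finset ι) (x : ℤ) :
    ((co (∏ v ∈ S, U (d v)) x : ℝ) - co (∏ v ∈ S, U (d v)) (x + 2)) * Real.pi =
      2 ^ S.card * ∫ t in (0 : ℝ)..Real.pi, Fi d S x t := by
  rw [sub_mul, co_prod_integral, co_prod_integral, ← mul_sub, ← intervalIntegral.integral_sub]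
  · congr 2
    funext t
    unfold Fi
    push_cast
    have e1 : (x : ℝ) * t = (x + 1) * t - t := by ring
    have e2 : ((x : ℝ) + 2) * t = (x + 1) * t + t := by ring
    rw [e1, e2, Real.cos_sub, Real.cos_add]
    ring
  · exact Continuous.intervalIntegrable (by fun_prop) _ _
  · exact Continuous.intervalIntegrable (by fun_prop) _ _

theorem Fi_reflect (S : Finset ι) (x : ℤ) (h : (x - ∑ v ∈ S, d v) % 2 = 0) (t : ℝ) :
    Fi d S x (Real.pi - t) = Fi d S x t := by
  unfold Fi
  have e1 : ∀ v, Real.cos (d v * (Real.pi - t)) = (-1) ^ (d v) * Real.cos (d v * t) := by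
    intro v
    rw [mul_sub, Real.cos_int_mul_pi_sub]
  have e2 : Real.sin ((x + 1) * (Real.pi - t)) = (-1) ^ x * Real.sin ((x + 1) * t) := by
    have := Real.sin_int_mul_pi_sub ((x + 1) * t) (x + 1)
    push_cast at this
    rw [mul_sub, this, zpow_add_one₀ (by norm_num)]
    ring
  have e3 : ∏ v ∈ S, ((-1 : ℝ)) ^ (d v) = (-1) ^ (∑ v ∈ S, d v) := by
    clear h
    induction S using Finset.induction_on with
    | empty => simp
    | insert a s ha ih => rw [prod_insert ha, sum_insert ha, ih, zpow_add₀ (by norm_num)]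
  have e4 : ((-1 : ℝ)) ^ (∑ v ∈ S, d v) * (-1) ^ x = 1 := by
    rw [← zpow_add₀ (by norm_num)]
    exact Even.neg_one_zpow ⟨((∑ v ∈ S, d v) + x) / 2, by omega⟩
  simp only [e1, e2, Real.sin_pi_sub, prod_mul_distrib, e3]
  linear_combination ((∏ v ∈ S, Real.cos (d v * t)) * (2 * Real.sin t * Real.sin ((x + 1) * t))) * e4

theorem central {p N : ℕ} (hp : 0 < p) (S0 S : Finset ι) (hS : S0 ⊆ S) (hN : S.card ≤ N)
    (hd : ∀ v ∈ S, |d v| ≤ p) (h1 : ∀ v ∈ S0, |d v| = 1) {θ : ℝ} (hθ0 : 0 < θ)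
    (hθ1 : θ * p ≤ 1) (hθ : N * p ^ 2 * θ ^ 2 ≤ 1)
    (hρ : Real.cos (Real.pi / (2 * p)) ^ S0.card ≤ θ ^ 3 / 256)
    {x : ℤ} (hx0 : 0 ≤ x) (hx : x < p) (hpar : (x - ∑ v ∈ S, d v) % 2 = 0) :
    2 ^ S.card * (θ ^ 3 / 128) ≤
      (co (∏ v ∈ S, U (d v)) x : ℝ) - co (∏ v ∈ S, U (d v)) (x + 2) := by
  have hp' : (1 : ℝ) ≤ p := by exact_mod_cast hp
  have pi3 := Real.pi_gt_three
  have pi4 := Real.pi_le_four
  set β : ℝ := Real.pi / (2 * p) with hβ
  have hβp : β * p = Real.pi / 2 := by rw [hβ]; field_simp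
  have hβ0 : 0 < β := by positivity
  have hθβ : θ ≤ β := by nlinarith
  have hβ2 : β ≤ Real.pi / 2 := by nlinarith
  have ii : ∀ a b : ℝ, IntervalIntegrable (Fi d S x) MeasureTheory.volume a b :=
    fun a b => (Fi_cont d S x).intervalIntegrable a b
  have hx0' : (0 : ℝ) ≤ x := by exact_mod_cast hx0
  have hx1 : (x : ℝ) + 1 ≤ p := by exact_mod_cast hx
  have s1 : ∫ t in (0 : ℝ)..Real.pi, Fi d S x t = 2 * ∫ t in (0 : ℝ)..(Real.pi / 2), Fi d S x t := by
    rw [← intervalIntegral.integral_add_adjacent_intervals (ii 0 (Real.pi / 2)) (ii _ Real.pi)]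
    have := intervalIntegral.integral_comp_sub_left (a := 0) (b := Real.pi / 2) (Fi d S x) Real.pi
    simp only [Fi_reflect d S x hpar, sub_zero] at this
    rw [show Real.pi - Real.pi / 2 = Real.pi / 2 by ring] at this
    rw [← this]
    ring
  have sinlb : ∀ t, 0 ≤ t → t ≤ β → 2 / Real.pi * t ≤ Real.sin t ∧
      2 / Real.pi * t ≤ Real.sin ((x + 1) * t) := by
    intro t t0 t1
    refine ⟨Real.mul_le_sin t0 (by linarith), le_trans ?_ (Real.mul_le_sin (by positivity) ?_)⟩
    · exact mul_le_mul_of_nonneg_left (by nlinarith) (by positivity)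
    · nlinarith
  have nonneg : ∀ t, 0 ≤ t → t ≤ β → 0 ≤ Fi d S x t := by
    intro t t0 t1
    obtain ⟨a1, a2⟩ := sinlb t t0 t1
    have a0 : 0 ≤ 2 / Real.pi * t := by positivity
    refine mul_nonneg (prod_nonneg fun v hv => cos_step_nonneg hp (hd v hv) t0 t1) ?_
    exact mul_nonneg (by linarith) (by linarith)
  have lower : ∀ t, θ / 2 ≤ t → t ≤ θ → θ ^ 2 / 16 ≤ Fi d S x t := by
    intro t t0 t1
    have t0' : 0 ≤ t := by linarith
    obtain ⟨a1, a2⟩ := sinlb t t0' (by linarith)
    have b1 : θ / 4 ≤ 2 / Real.pi * t := by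
      rw [div_mul_eq_mul_div, le_div_iff₀ (by linarith)]
      nlinarith
    have c1 := one_sub_sum_le_prod (fun v => Real.cos (d v * t)) S
      (fun v hv => cos_step_nonneg hp (hd v hv) t0' (by linarith)) (fun v _ => Real.cos_le_one _)
    have c2 : ∑ v ∈ S, (1 - Real.cos (d v * t)) ≤ S.card • (p ^ 2 * θ ^ 2 / 2 : ℝ) := by
      refine sum_le_card_nsmul _ _ _ fun v hv => ?_
      have := Real.one_sub_sq_div_two_le_cos (x := d v * t)
      have he' : |(d v : ℝ)| ≤ p := by exact_mod_cast hd v hv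
      have q1 : (d v : ℝ) ^ 2 ≤ p ^ 2 := sq_le_sq' (abs_le.1 he').1 (abs_le.1 he').2
      have q2 : t ^ 2 ≤ θ ^ 2 := by nlinarith
      have q3 : (d v : ℝ) ^ 2 * t ^ 2 ≤ p ^ 2 * θ ^ 2 :=
        mul_le_mul q1 q2 (by positivity) (by positivity)
      rw [mul_pow] at this
      linarith
    have hN' : (S.card : ℝ) ≤ N := by exact_mod_cast hN
    rw [nsmul_eq_mul] at c2
    have c3 : (S.card : ℝ) * (p ^ 2 * θ ^ 2 / 2) ≤ N * (p ^ 2 * θ ^ 2 / 2) :=
      mul_le_mul_of_nonneg_right hN' (by positivity)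
    have c4 : 1 / 2 ≤ ∏ v ∈ S, Real.cos (d v * t) := by nlinarith
    have c5 : θ / 4 * (θ / 4) ≤ Real.sin t * Real.sin ((x + 1) * t) :=
      mul_le_mul (by linarith) (by linarith) (by positivity) (by linarith)
    unfold Fi
    nlinarith
  have upper : ∀ t, β ≤ t → t ≤ Real.pi / 2 → -(2 * (θ ^ 3 / 256)) ≤ Fi d S x t := by
    intro t t0 t1
    have a1 : |∏ v ∈ S, Real.cos (d v * t)| ≤ θ ^ 3 / 256 := by
      rw [abs_prod, ← prod_sdiff hS]
      have b1 : ∏ v ∈ S \ S0, |Real.cos (d v * t)| ≤ 1 :=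
        prod_le_one (fun v _ => abs_nonneg _) fun v _ => Real.abs_cos_le_one _
      have b2 : ∏ v ∈ S0, |Real.cos (d v * t)| ≤ Real.cos β ^ S0.card := by
        rw [← prod_const]
        refine prod_le_prod (fun v _ => abs_nonneg _) fun v hv => ?_
        have e : Real.cos (d v * t) = Real.cos t := by
          rcases (abs_eq (by norm_num)).1 (h1 v hv) with h | h <;> simp [h]
        rw [e, abs_of_nonneg (Real.cos_nonneg_of_neg_pi_div_two_le_of_le (by linarith) t1)]
        exact Real.cos_le_cos_of_nonneg_of_le_pi hβ0.le (by linarith) t0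
      have b3 : 0 ≤ ∏ v ∈ S0, |Real.cos (d v * t)| := prod_nonneg fun v _ => abs_nonneg _
      nlinarith
    have a2 : |2 * Real.sin t * Real.sin ((x + 1) * t)| ≤ 2 := by
      rw [abs_mul, abs_mul, abs_two]
      have := Real.abs_sin_le_one t
      have := Real.abs_sin_le_one ((x + 1) * t)
      have := abs_nonneg (Real.sin t)
      have := abs_nonneg (Real.sin ((x + 1) * t))
      nlinarith
    have a3 : |Fi d S x t| ≤ θ ^ 3 / 256 * 2 := by
      unfold Fi
      rw [abs_mul]
      exact mul_le_mul a1 a2 (abs_nonneg _) (by positivity)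
    linarith [(abs_le.1 a3).1]
  have i1 : θ ^ 3 / 32 ≤ ∫ t in (0 : ℝ)..β, Fi d S x t := by
    rw [← intervalIntegral.integral_add_adjacent_intervals (ii 0 (θ / 2)) (ii _ β),
      ← intervalIntegral.integral_add_adjacent_intervals (ii (θ / 2) θ) (ii _ β)]
    have j1 : 0 ≤ ∫ t in (0 : ℝ)..(θ / 2), Fi d S x t :=
      intervalIntegral.integral_nonneg (by linarith) fun t ht => nonneg t ht.1 (by linarith [ht.2])
    have j2 : 0 ≤ ∫ t in θ..β, Fi d S x t :=
      intervalIntegral.integral_nonneg hθβ fun t ht => nonneg t (by linarith [ht.1]) ht.2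
    have j3 := intervalIntegral.integral_mono_on (by linarith : θ / 2 ≤ θ)
      (intervalIntegrable_const (c := θ ^ 2 / 16)) (ii _ _) fun t ht => lower t ht.1 ht.2
    rw [intervalIntegral.integral_const, smul_eq_mul] at j3
    nlinarith
  have i2 : -(θ ^ 3 / 64) ≤ ∫ t in β..(Real.pi / 2), Fi d S x t := by
    have j3 := intervalIntegral.integral_mono_on hβ2
      (intervalIntegrable_const (c := -(2 * (θ ^ 3 / 256)))) (ii _ _) fun t ht => upper t ht.1 ht.2
    rw [intervalIntegral.integral_const, smul_eq_mul] at j3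
    have : 0 < θ ^ 3 := by positivity
    nlinarith
  have e := diff_integral d S x
  rw [s1, ← intervalIntegral.integral_add_adjacent_intervals (ii 0 β) (ii _ _)] at e
  have h2 : (0 : ℝ) < 2 ^ S.card := by positivity
  have h3 : 0 < θ ^ 3 := by positivity
  by_contra hc
  push Not at hc
  have h4 : 2 ^ S.card * (θ ^ 3 / 32) ≤
      ((co (∏ v ∈ S, U (d v)) x : ℝ) - co (∏ v ∈ S, U (d v)) (x + 2)) * Real.pi := by
    rw [e]
    exact mul_le_mul_of_nonneg_left (by linarith) h2.le
  have h5 : 0 < 2 ^ S.card * θ ^ 3 := by positivity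
  nlinarith

theorem co_U1_pow (j : ℕ) (x : ℤ) :
    (j + x + 2) * co (U 1 ^ j) (x + 2) = (j - x) * co (U 1 ^ j) x := by
  induction j generalizing x with
  | zero =>
    simp only [pow_zero, co_one]
    split_ifs <;> omega
  | succ j ih =>
    have h1 := ih (x - 1)
    have h2 := ih (x + 1)
    rw [pow_succ', co_U_mul, co_U_mul]
    rw [show x - 1 + 2 = x + 1 by ring] at h1
    rw [show x + 1 + 2 = x + 2 + 1 by ring] at h2
    rw [show x + 2 - 1 = x + 1 by ring]
    push_cast
    linear_combination h2 + h1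

/-- Quantitative decay away from the origin. -/
def Qu (γ : ℝ) (f : LP) : Prop := ∀ x : ℤ, 0 ≤ x → (1 + γ) * co f (x + 2) ≤ co f x

theorem qu_base {γ : ℝ} (S0 : Finset ι) (h1 : ∀ v ∈ S0, |d v| = 1)
    (hγ : γ * S0.card ≤ 2) : Qu γ (∏ v ∈ S0, U (d v)) := by
  intro x hx
  have b1 := (co_prod_bound d S0 x).1
  have b2 := (co_prod_bound d S0 (x + 2)).1
  have e : ∏ v ∈ S0, U (d v) = U 1 ^ S0.card := by
    rw [← prod_const]
    refine prod_congr rfl fun v hv => ?_
    rcases (abs_eq (by norm_num)).1 (h1 v hv) with h | h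
    · rw [h]
    · rw [h, U_neg]
  rw [e] at b1 b2 ⊢
  rcases Nat.eq_zero_or_pos S0.card with h0 | h0
  · rw [h0, pow_zero, co_one, co_one, if_neg (by omega)]
    split_ifs <;> simp
  have h2 := co_U1_pow S0.card x
  have h3 : ((S0.card : ℝ) + x + 2) * co (U 1 ^ S0.card) (x + 2) =
      (S0.card - x) * co (U 1 ^ S0.card) x := by exact_mod_cast h2
  have b1' : (0 : ℝ) ≤ co (U 1 ^ S0.card) x := by exact_mod_cast b1
  have b2' : (0 : ℝ) ≤ co (U 1 ^ S0.card) (x + 2) := by exact_mod_cast b2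
  have hx' : (0 : ℝ) ≤ x := by exact_mod_cast hx
  have h0' : (0 : ℝ) < S0.card := by exact_mod_cast h0
  refine le_of_mul_le_mul_left ?_ h0'
  nlinarith [mul_nonneg hx' b1', mul_nonneg hx' b2', mul_le_mul_of_nonneg_right hγ b2']

theorem qu_prod {p N : ℕ} (hp : 0 < p) (S0 S : Finset ι) (hS : S0 ⊆ S) (hN : S.card ≤ N)
    (hd : ∀ v ∈ S, |d v| ≤ p) (h1 : ∀ v ∈ S0, |d v| = 1) {θ : ℝ} (hθ0 : 0 < θ)
    (hθ1 : θ * p ≤ 1) (hθ : N * p ^ 2 * θ ^ 2 ≤ 1)
    (hρ : Real.cos (Real.pi / (2 * p)) ^ S0.card ≤ θ ^ 3 / 256) :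
    Qu (θ ^ 3 / 128) (∏ v ∈ S, U (d v)) := by
  have hp' : (1 : ℝ) ≤ p := by exact_mod_cast hp
  have hθ2 : θ ≤ 1 := by nlinarith
  have hN' : (S.card : ℝ) ≤ N := by exact_mod_cast hN
  have key : Qu (θ ^ 3 / 128) (∏ v ∈ S0 ∪ S \ S0, U (d v)) := by
    refine Finset.induction_on' (motive := fun T => Qu (θ ^ 3 / 128) (∏ v ∈ S0 ∪ T, U (d v)))
      (S \ S0) ?_ ?_
    · rw [union_empty]
      refine qu_base d S0 h1 ?_
      have c1 : (S0.card : ℝ) ≤ S.card := by exact_mod_cast card_le_card hS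
      have c2 : (N : ℝ) * θ ^ 2 ≤ 1 := by
        have : (N : ℝ) * θ ^ 2 * 1 ≤ N * θ ^ 2 * p ^ 2 :=
          mul_le_mul_of_nonneg_left (by nlinarith) (by positivity)
        linarith
      have c3 : θ ^ 2 * S0.card ≤ θ ^ 2 * N := mul_le_mul_of_nonneg_left (by linarith) (by positivity)
      have c4 : θ * (θ ^ 2 * S0.card) ≤ 1 * 1 :=
        mul_le_mul hθ2 (by linarith) (by positivity) (by norm_num)
      nlinarith
    · intro a T ha hT haT ih x hx
      have ha' : a ∉ S0 ∪ T := by
        rw [mem_union]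
        rintro (h | h)
        · exact (mem_sdiff.1 ha).2 h
        · exact haT h
      have hsub : insert a (S0 ∪ T) ⊆ S :=
        insert_subset (mem_sdiff.1 ha).1 (union_subset hS (hT.trans sdiff_subset))
      rw [union_insert]
      by_cases hc : x < p
      · by_cases hpar : (x - ∑ v ∈ insert a (S0 ∪ T), d v) % 2 = 0
        · have c1 := central d hp S0 (insert a (S0 ∪ T))
            (subset_union_left.trans (subset_insert _ _)) ((card_le_card hsub).trans hN)
            (fun v hv => hd v (hsub hv)) h1 hθ0 hθ1 hθ hρ hx hc hpar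
          have c2 : (co (∏ v ∈ insert a (S0 ∪ T), U (d v)) (x + 2) : ℝ) ≤
              2 ^ (insert a (S0 ∪ T)).card := by
            exact_mod_cast (co_prod_bound d _ (x + 2)).2
          have c3 : (0 : ℝ) ≤ θ ^ 3 / 128 := by positivity
          nlinarith [mul_le_mul_of_nonneg_right c2 c3]
        · rw [co_prod_parity d _ x hpar, co_prod_parity d _ (x + 2) (by omega)]
          simp
      · have hda := abs_le.1 (hd a (mem_sdiff.1 ha).1)
        rw [prod_insert ha', co_U_mul, co_U_mul]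
        have i1 := ih (x - d a) (by omega)
        have i2 := ih (x + d a) (by omega)
        rw [show x - d a + 2 = x + 2 - d a by ring] at i1
        rw [show x + d a + 2 = x + 2 + d a by ring] at i2
        push_cast
        linarith
  rwa [union_sdiff_of_subset hS] at key

end Pool.Agent.Lib.MP_64bee1_co
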