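import Pool.Agent.Lib.MP_64bee1_co.Tail

/-!
Unimodality for cyclic column graphs with many columns of bounded size.
-/

namespace Pool.Agent.Lib.MP_64bee1_co

open LaurentPolynomial Finset

variable {N : ℕ} (A : Fin N → Fin N → Prop) [DecidableRel A]

/-- Folded configurations. -/
abbrev Fo (N : ℕ) : Type := Equiv.Perm (Fin N) × (Fin N → Bool)

/-- The labelling of a folded configuration. -/
def lab (ω : Fo N) : Fin N → ℤ := fun v => sv (ω.2 v) (ω.1 v)

/-- Relabelling a folded configuration. -/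
def act (τ : Equiv.Perm (Fin N)) (ω : Fo N) : Fo N := (ω.1 * τ, ω.2 ∘ τ)

theorem act_inj (τ : Equiv.Perm (Fin N)) : Function.Injective (act τ) := by
  rintro ⟨a, b⟩ ⟨c, d⟩ h
  simp only [act, Prod.mk.injEq] at h
  exact Prod.ext (mul_left_injective τ h.1) (τ.surjective.injective_comp_right h.2)

theorem co_class (hA : ∀ i j, A i j → i ≠ j) (π : Equiv.Perm (Fin N)) (t : ℕ) :
    co (∏ v, U (dg A π v)) (2 * t - ne A) =
      (univ.filter fun η : Fin N → Bool => ivf A (lab (π, η)) = t).card := by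
  have e : ∏ v, U (dg A π v) = ∑ η : Fin N → Bool, (T (sg A (lab (π, η))) : LP) := by
    have h : ∀ η : Fin N → Bool, sg A (lab (π, η)) = ∑ v, sn (η v) * dg A π v :=
      fun η => sg_signed A hA π η
    simp only [h, T_sum]
    have := prod_univ_sum (fun _ : Fin N => (univ : Finset Bool))
      fun v b => (T (sn b * dg A π v) : LP)
    rw [Fintype.piFinset_univ] at this
    rw [← this]
    refine prod_congr rfl fun v _ => ?_
    simp [sn, U]
  rw [e, co_sum, card_filter]
  push_cast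
  refine sum_congr rfl fun η _ => ?_
  rw [co_T, sg_eq_ivf]
  by_cases h : ivf A (lab (π, η)) = t
  · rw [if_pos h, if_pos (by rw [h])]
  · rw [if_neg h, if_neg (by omega)]

theorem sum_class (hA : ∀ i j, A i j → i ≠ j) (B : Equiv.Perm (Fin N) → Prop) [DecidablePred B]
    (t : ℕ) : ∑ π ∈ univ.filter B, co (∏ v, U (dg A π v)) (2 * t - ne A) =
      (univ.filter fun ω : Fo N => B ω.1 ∧ ivf A (lab ω) = t).card := by
  simp only [co_class A hA, card_filter, Fintype.sum_prod_type, sum_filter]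
  push_cast
  refine sum_congr rfl fun π _ => ?_
  by_cases h : B π <;> simp [h]

theorem total_class (hA : ∀ i j, A i j → i ≠ j) (t : ℕ) :
    ∑ π : Equiv.Perm (Fin N), co (∏ v, U (dg A π v)) (2 * t - ne A) = 2 ^ N * cnt A t := by
  rw [← co_sum, ← fold A hA, co_nat_mul, co_enum]
  push_cast
  rfl

theorem card_level (hA : ∀ i j, A i j → i ≠ j) (t : ℕ) :
    (univ.filter fun ω : Fo N => ivf A (lab ω) = t).card = 2 ^ N * cnt A t := by
  have h := sum_class A hA (fun _ => True) t
  rw [filter_true, total_class A hA] at h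
  simp only [true_and] at h
  exact_mod_cast h.symm

/-- The two ends of the chosen edge come first in their window. -/
def Ali (col : Fin N → ℕ) (E : ℕ → Fin N × Fin N) (π : Equiv.Perm (Fin N)) (s : ℕ) : Prop :=
  ∀ z ∈ Win col 4 s, z ≠ (E s).1 → z ≠ (E s).2 → π (E s).1 < π z ∧ π (E s).2 < π z

instance (col : Fin N → ℕ) (E : ℕ → Fin N × Fin N) (π : Equiv.Perm (Fin N)) (s : ℕ) :
    Decidable (Ali col E π s) := by
  unfold Ali; infer_instance

/-- Number of aligned windows. -/
def nal (k : ℕ) (col : Fin N → ℕ) (E : ℕ → Fin N × Fin N) (π : Equiv.Perm (Fin N)) : ℕ :=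
  ((range (k / 4)).filter (Ali col E π)).card

variable {A} {k p : ℕ} {col : Fin N → ℕ} {E : ℕ → Fin N × Fin N}

omit [DecidableRel A] in
theorem Cyc.ne' (H : Cyc A k p col) : ∀ i j, A i j → i ≠ j := fun i j h => (H.lt i j h).ne

theorem Cyc.unit_of_ali (H : Cyc A k p col) {s : ℕ} (hs : s < k / 4)
    (hE : A (E s).1 (E s).2 ∧ col (E s).1 = 4 * s + 1) {π : Equiv.Perm (Fin N)}
    (h : Ali col E π s) : ∃ x, col x / 4 = s ∧ |dg A π x| = 1 := by
  unfold Ali at h
  obtain ⟨h1, h2⟩ := hE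
  generalize (E s).1 = u at *
  generalize (E s).2 = v at *
  have h3 : col v = 4 * s + 2 := by rw [H.step _ _ h1, h2, Nat.mod_eq_of_lt (by omega)]
  have hne := H.ne' _ _ h1
  have ou : ∀ z, A u z → col z = 4 * s + 2 := fun z hz => by
    rw [H.step _ _ hz, h2, Nat.mod_eq_of_lt (by omega)]
  have ov : ∀ z, A v z → col z = 4 * s + 3 := fun z hz => by
    rw [H.step _ _ hz, h3, Nat.mod_eq_of_lt (by omega)]
  have iu : ∀ z, A z u → col z = 4 * s := fun z hz => by
    rw [H.back hz, h2, show 4 * s + 1 + k - 1 = 4 * s + k by omega, Nat.add_mod_right,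
      Nat.mod_eq_of_lt (by omega)]
  have iv : ∀ z, A z v → col z = 4 * s + 1 := fun z hz => by
    rw [H.back hz, h3, show 4 * s + 2 + k - 1 = 4 * s + 1 + k by omega, Nat.add_mod_right,
      Nat.mod_eq_of_lt (by omega)]
  have mem : ∀ z, col z / 4 = s → z ∈ Win col 4 s := fun z hz => mem_filter.2 ⟨mem_univ _, hz⟩
  rcases lt_or_gt_of_ne (π.injective.ne hne) with c | c
  · refine ⟨v, by omega, ?_⟩
    have e1 : (univ.filter fun z => A v z ∧ π z < π v) = ∅ := by
      refine filter_false_of_mem fun z _ ⟨a, b⟩ => ?_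
      have := ov z a
      refine lt_asymm b (h z (mem z (by omega)) ?_ ?_).2 <;> rintro rfl <;> omega
    have e2 : (univ.filter fun z => A z v ∧ π z < π v) = {u} := by
      ext z
      simp only [mem_filter, mem_univ, true_and, mem_singleton]
      refine ⟨fun ⟨a, b⟩ => ?_, fun e => e ▸ ⟨h1, c⟩⟩
      by_contra hz
      have := iv z a
      exact lt_asymm b (h z (mem z (by omega)) hz (H.ne' _ _ a)).2
    unfold dg
    rw [sum_boole, sum_boole, e1, e2]
    simp
  · refine ⟨u, by omega, ?_⟩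
    have e1 : (univ.filter fun z => A z u ∧ π z < π u) = ∅ := by
      refine filter_false_of_mem fun z _ ⟨a, b⟩ => ?_
      have := iu z a
      refine lt_asymm b (h z (mem z (by omega)) ?_ ?_).1 <;> rintro rfl <;> omega
    have e2 : (univ.filter fun z => A u z ∧ π z < π u) = {v} := by
      ext z
      simp only [mem_filter, mem_univ, true_and, mem_singleton]
      refine ⟨fun ⟨a, b⟩ => ?_, fun e => e ▸ ⟨h1, c⟩⟩
      by_contra hz
      have := ou z a
      exact lt_asymm b (h z (mem z (by omega)) (H.ne' _ _ a).symm hz).1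
    unfold dg
    rw [sum_boole, sum_boole, e1, e2]
    simp

theorem Cyc.units (H : Cyc A k p col)
    (hE : ∀ s < k / 4, A (E s).1 (E s).2 ∧ col (E s).1 = 4 * s + 1) (π : Equiv.Perm (Fin N)) :
    nal k col E π ≤ (univ.filter fun v => |dg A π v| = 1).card := by
  refine le_trans (card_le_card (t := (univ.filter fun v => |dg A π v| = 1).image
    fun x => col x / 4) fun s hs => ?_) card_image_le
  obtain ⟨a, b⟩ := mem_filter.1 hs
  obtain ⟨x, x1, x2⟩ := H.unit_of_ali (mem_range.1 a) (hE s (mem_range.1 a)) b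
  exact mem_image.2 ⟨x, mem_filter.2 ⟨mem_univ _, x2⟩, x1⟩

omit [DecidableRel A] in
theorem Cyc.win_edge (H : Cyc A k p col) {s : ℕ} (hs : s < k / 4)
    (hE : A (E s).1 (E s).2 ∧ col (E s).1 = 4 * s + 1) :
    (E s).1 ∈ Win col 4 s ∧ (E s).2 ∈ Win col 4 s := by
  have h3 : col (E s).2 = 4 * s + 2 := by rw [H.step _ _ hE.1, hE.2, Nat.mod_eq_of_lt (by omega)]
  have h2 := hE.2
  exact ⟨mem_filter.2 ⟨mem_univ _, by omega⟩, mem_filter.2 ⟨mem_univ _, by omega⟩⟩

/-- Folded configurations with few aligned windows near a given level. -/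
def Bad (A : Fin N → Fin N → Prop) [DecidableRel A] (k : ℕ) (col : Fin N → ℕ)
    (E : ℕ → Fin N × Fin N) (M t r : ℕ) : Finset (Fo N) :=
  univ.filter fun ω => nal k col E ω.1 < M ∧ ivf A (lab ω) ∈ Icc (t - r) (t + r)

theorem Cyc.bad_step (H : Cyc A k p col)
    (hE : ∀ s < k / 4, A (E s).1 (E s).2 ∧ col (E s).1 = 4 * s + 1) (M t r : ℕ) :
    (Bad A k col E M t r).card * (k / 4 - M) ≤
      (4 * p).factorial * ((Bad A k col E (M + 1) t (r + 8 * (p * p))).card * M) := by
  have h := switch (Bad A k col E M t r) (Bad A k col E (M + 1) t (r + 8 * (p * p))) (range (k / 4))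
    (fun s => Sup (Win col 4 s)) act act_inj (fun ω s => ¬ Ali col E ω.1 s)
    (fun ω s => Ali col E ω.1 s) (4 * p).factorial
    (fun s _ => card_Sup _ (H.card_Win (by norm_num) s)) (by
      intro ω hω s hs _
      have hs' := mem_range.1 hs
      obtain ⟨m1, m2⟩ := H.win_edge hs' (hE s hs')
      obtain ⟨τ, hτ, hsort⟩ := exists_sort (Win col 4 s) ω.1
        (fun z => if z = (E s).1 ∨ z = (E s).2 then 0 else 1)
      obtain ⟨b1, b2⟩ := (mem_filter.1 hω).2
      refine ⟨τ, hτ, mem_filter.2 ⟨mem_univ _, ?_, ?_⟩, ?_⟩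
      · have hsub : (range (k / 4)).filter (Ali col E (act τ ω).1) ⊆
            insert s ((range (k / 4)).filter (Ali col E ω.1)) := by
          intro s' hs'
          obtain ⟨c1, c2⟩ := mem_filter.1 hs'
          by_cases e : s' = s
          · rw [e]; exact mem_insert_self _ _
          refine mem_insert_of_mem (mem_filter.2 ⟨c1, ?_⟩)
          have fix : ∀ z ∈ Win col 4 s', (act τ ω).1 z = ω.1 z := by
            intro z hz
            have : τ z = z := (mem_filter.1 hτ).2 z fun q =>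
              e ((mem_filter.1 hz).2.symm.trans (mem_filter.1 q).2)
            simp only [act, Equiv.Perm.mul_apply, this]
          obtain ⟨n1, n2⟩ := H.win_edge (mem_range.1 c1) (hE s' (mem_range.1 c1))
          intro z hz z1 z2
          have := c2 z hz z1 z2
          rwa [fix _ n1, fix _ n2, fix _ hz] at this
        have := (card_le_card hsub).trans (card_insert_le _ _)
        unfold nal at b1 ⊢
        omega
      · have a1 := ivf_change A (Win col 4 s) (lab ω) hτ
        have a2 := H.ivt_le (Win col 4 s) (lab ω)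
        have a3 := H.ivt_le (Win col 4 s) (lab ω ∘ τ)
        have a4 := Nat.mul_le_mul_right p (H.card_Win (L := 4) (by norm_num) s)
        have a5 : lab (act τ ω) = lab ω ∘ τ := rfl
        rw [mul_assoc] at a4
        rw [mem_Icc] at b2 ⊢
        rw [a5]
        omega
      · intro z hz z1 z2
        exact ⟨hsort _ m1 _ hz (by simp [z1, z2]), hsort _ m2 _ hz (by simp [z1, z2])⟩)
  refine le_trans ?_ (h.trans (Nat.mul_le_mul_left _ ?_))
  · refine card_nsmul_le_sum _ _ _ fun ω hω => ?_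
    have a := card_filter_add_card_filter_not (s := range (k / 4)) (Ali col E ω.1)
    have b := (mem_filter.1 hω).2.1
    rw [card_range] at a
    unfold nal at b
    omega
  · exact sum_le_card_nsmul _ _ _ fun ω hω => Nat.lt_succ_iff.1 (mem_filter.1 hω).2.1

/-- The constant in the bound for the bad configurations. -/
def Cc (p : ℕ) : ℕ := (4 * p).factorial ^ 2 * ((32 * (p * p) + 1) * Rc p ^ (16 * (p * p)))

theorem Cyc.bad_le (H : Cyc A k p col) (hp : 0 < p) (hk : 48 * (p * p) ≤ k)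
    (hE : ∀ s < k / 4, A (E s).1 (E s).2 ∧ col (E s).1 = 4 * s + 1) (M : ℕ) {t : ℕ}
    (ht : k ≤ 4 * t) (hB : ∀ s ≤ t, cnt A s ≤ cnt A t) :
    (Bad A k col E M t 0).card * (k / 4 - (M + 1)) ^ 2 ≤ Cc p * (M + 1) ^ 2 * (2 ^ N * cnt A t) := by
  have h1 := H.bad_step hE M t 0
  have h2 := H.bad_step hE (M + 1) t (0 + 8 * (p * p))
  have h3 : (Bad A k col E (M + 1 + 1) t (0 + 8 * (p * p) + 8 * (p * p))).card ≤
      (32 * (p * p) + 1) * (2 ^ N * (Rc p ^ (16 * (p * p)) * cnt A t)) := by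
    set r := 0 + 8 * (p * p) + 8 * (p * p) with hr
    refine le_trans (card_le_card (t := (Icc (t - r) (t + r)).biUnion fun s =>
      univ.filter fun ω : Fo N => ivf A (lab ω) = s) fun ω hω => ?_)
      ((card_biUnion_le_card_mul _ _ _ fun s hs => ?_).trans (Nat.mul_le_mul_right _ ?_))
    · exact mem_biUnion.2 ⟨_, (mem_filter.1 hω).2.2, mem_filter.2 ⟨mem_univ _, rfl⟩⟩
    · rw [card_level A H.ne']
      refine Nat.mul_le_mul_left _ (H.crude_iter hp hk ht hB _ s ?_)
      have := (mem_Icc.1 hs).2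
      omega
    · rw [Nat.card_Icc]; omega
  set W := k / 4 - (M + 1) with hW
  have h4 : W ≤ k / 4 - M := by omega
  set F := (4 * p).factorial
  set b0 := (Bad A k col E M t 0).card
  set b1 := (Bad A k col E (M + 1) t (0 + 8 * (p * p))).card
  set b2 := (Bad A k col E (M + 1 + 1) t (0 + 8 * (p * p) + 8 * (p * p))).card
  have h5 : b0 * W ≤ F * (b1 * (M + 1)) :=
    (Nat.mul_le_mul_left _ h4).trans (h1.trans (Nat.mul_le_mul_left _
      (Nat.mul_le_mul_left _ (Nat.le_succ M))))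
  calc b0 * W ^ 2 = b0 * W * W := by ring
    _ ≤ F * (b1 * (M + 1)) * W := Nat.mul_le_mul_right _ h5
    _ = F * (M + 1) * (b1 * W) := by ring
    _ ≤ F * (M + 1) * (F * (b2 * (M + 1))) := Nat.mul_le_mul_left _ h2
    _ ≤ F * (M + 1) * (F * ((32 * (p * p) + 1) * (2 ^ N * (Rc p ^ (16 * (p * p)) * cnt A t)) *
        (M + 1))) := by gcongr
    _ = _ := by unfold Cc; ring

theorem Cyc.step_up (H : Cyc A k p col) (hp : 0 < p) (hk : 48 * (p * p) ≤ k) {M : ℕ} {θ : ℝ}
    (hθ0 : 0 < θ) (hθ1 : θ * p ≤ 1) (hθ : N * p ^ 2 * θ ^ 2 ≤ 1)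
    (hρ : Real.cos (Real.pi / (2 * p)) ^ M ≤ θ ^ 3 / 256) (hM : M + 1 < k / 4)
    (hW : 2 * (Cc p : ℝ) * (M + 1) ^ 2 ≤ θ ^ 3 / 128 * ((k / 4 - (M + 1) : ℕ) : ℝ) ^ 2)
    {t : ℕ} (ht : k ≤ 4 * t) (hte : 2 * t + 2 ≤ ne A) (hB : ∀ s ≤ t, cnt A s ≤ cnt A t) :
    cnt A t ≤ cnt A (t + 1) := by
  have hex : ∀ s : ℕ, ∃ e : Fin N × Fin N, s < k / 4 → A e.1 e.2 ∧ col e.1 = 4 * s + 1 := by
    intro s
    by_cases hs : s < k / 4
    · obtain ⟨e, he⟩ := H.path (4 * s + 1) (by omega)
      exact ⟨e, fun _ => he⟩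
    · obtain ⟨e, _⟩ := H.path 0 (by omega)
      exact ⟨e, fun h => absurd h hs⟩
  choose E hE using hex
  have hp' : (1 : ℝ) ≤ p := by exact_mod_cast hp
  set γ : ℝ := θ ^ 3 / 128 with hγ
  have hγ0 : 0 < γ := by positivity
  have hγ1 : γ ≤ 1 := by
    have : θ ≤ 1 := by nlinarith
    have : θ ^ 3 ≤ 1 := pow_le_one₀ hθ0.le this
    linarith
  set c : Equiv.Perm (Fin N) → ℕ → ℝ := fun π s => co (∏ v, U (dg A π v)) (2 * s - ne A) with hc
  have c0 : ∀ π s, 0 ≤ c π s := fun π s => by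
    simp only [hc]
    exact_mod_cast (co_prod_bound _ _ _).1
  have tot : ∀ s, ∑ π, c π s = 2 ^ N * cnt A s := fun s => by
    simp only [hc]
    exact_mod_cast total_class A H.ne' s
  have good : ∀ π, ¬ nal k col E π < M → (1 + γ) * c π t ≤ c π (t + 1) := by
    intro π hπ
    obtain ⟨S0, s1, s2⟩ := exists_subset_card_eq ((not_lt.1 hπ).trans (H.units hE π))
    have q := qu_prod (dg A π) hp S0 univ (subset_univ _) (N := N) (by simp)
      (fun v _ => H.dg_le π v) (fun v hv => (mem_filter.1 (s1 hv)).2) hθ0 hθ1 hθ (by rwa [s2])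
      (ne A - 2 * t - 2) (by omega)
    have sy := sym_prod (dg A π) univ
    simp only [hc]
    rw [← sy (2 * t - ne A), ← sy (2 * (t + 1 : ℕ) - ne A)]
    push_cast
    rw [show -(2 * (t : ℤ) - ne A) = ne A - 2 * t - 2 + 2 by ring,
      show -(2 * ((t : ℤ) + 1) - ne A) = ne A - 2 * t - 2 by ring]
    exact q
  have bad : ∑ π ∈ univ.filter fun π => nal k col E π < M, c π t = (Bad A k col E M t 0).card := by
    simp only [hc]
    have := sum_class A H.ne' (fun π => nal k col E π < M) t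
    unfold Bad
    simp only [Nat.sub_zero, add_zero, Icc_self, mem_singleton]
    exact_mod_cast this
  have hb : ((Bad A k col E M t 0).card : ℝ) * ((k / 4 - (M + 1) : ℕ) : ℝ) ^ 2 ≤
      Cc p * (M + 1) ^ 2 * (2 ^ N * cnt A t) := by
    exact_mod_cast H.bad_le hp hk hE M ht hB
  have hWpos : (0 : ℝ) < ((k / 4 - (M + 1) : ℕ) : ℝ) ^ 2 := by
    have : 0 < k / 4 - (M + 1) := by omega
    positivity
  have hX : (0 : ℝ) ≤ 2 ^ N * cnt A t := by positivity
  have hb2 : 2 * ((Bad A k col E M t 0).card : ℝ) ≤ γ * (2 ^ N * cnt A t) := by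
    refine le_of_mul_le_mul_right ?_ hWpos
    nlinarith [mul_le_mul_of_nonneg_right hW hX]
  have s1 := sum_filter_add_sum_filter_not univ (fun π => nal k col E π < M) (fun π => c π t)
  have s2 := sum_filter_add_sum_filter_not univ (fun π => nal k col E π < M) (fun π => c π (t + 1))
  have s3 : (1 + γ) * ∑ π ∈ univ.filter fun π => ¬ nal k col E π < M, c π t ≤
      ∑ π ∈ univ.filter fun π => ¬ nal k col E π < M, c π (t + 1) := by
    rw [mul_sum]
    exact sum_le_sum fun π hπ => good π (mem_filter.1 hπ).2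
  have s4 : 0 ≤ ∑ π ∈ univ.filter fun π => nal k col E π < M, c π (t + 1) :=
    sum_nonneg fun π _ => c0 π _
  rw [tot, bad] at s1
  rw [tot] at s2
  have s5 : (0 : ℝ) ≤ (Bad A k col E M t 0).card := by positivity
  have s6 : (2 : ℝ) ^ N * cnt A t ≤ 2 ^ N * cnt A (t + 1) := by nlinarith
  have := le_of_mul_le_mul_left s6 (by positivity)
  exact_mod_cast this

theorem cnt_symm (hA : ∀ i j, A i j → i ≠ j) {s t : ℕ} (h : s + t = ne A) : cnt A s = cnt A t := by
  have h1 := total_class A hA s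
  have h2 := total_class A hA t
  have e : ∀ π : Equiv.Perm (Fin N), co (∏ v, U (dg A π v)) (2 * s - ne A) =
      co (∏ v, U (dg A π v)) (2 * t - ne A) := fun π => by
    rw [← sym_prod (dg A π) univ (2 * s - ne A)]
    congr 1
    omega
  simp only [e, h2] at h1
  have := mul_left_cancel₀ (by positivity) h1
  exact_mod_cast this.symm

theorem cnt_zero {t : ℕ} (h : ne A < t) : cnt A t = 0 := by
  unfold cnt
  rw [card_eq_zero]
  refine filter_false_of_mem fun w _ e => ?_
  have : iv A w ≤ ne A := card_le_card fun x hx => mem_filter.2 ⟨mem_univ _, (mem_filter.1 hx).2.1⟩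
  omega

theorem Cyc.unimodal (H : Cyc A k p col) (hp : 0 < p) (hk : 48 * (p * p) ≤ k) {M : ℕ} {θ : ℝ}
    (hθ0 : 0 < θ) (hθ1 : θ * p ≤ 1) (hθ : N * p ^ 2 * θ ^ 2 ≤ 1)
    (hρ : Real.cos (Real.pi / (2 * p)) ^ M ≤ θ ^ 3 / 256) (hM : M + 1 < k / 4)
    (hW : 2 * (Cc p : ℝ) * (M + 1) ^ 2 ≤ θ ^ 3 / 128 * ((k / 4 - (M + 1) : ℕ) : ℝ) ^ 2) :
    ∃ m : ℕ, (∀ i j, i ≤ j → j ≤ m → cnt A i ≤ cnt A j) ∧
      ∀ i j, m ≤ i → i ≤ j → cnt A j ≤ cnt A i := by
  have up : ∀ t, 2 * t ≤ ne A + 1 → ∀ s ≤ t, cnt A s ≤ cnt A t := by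
    intro t
    induction t with
    | zero => intro _ s hs; rw [Nat.le_zero.1 hs]
    | succ t ih =>
      intro ht s hs
      have hB := ih (by omega)
      have st : cnt A t ≤ cnt A (t + 1) := by
        by_cases h1 : 4 * t + 1 ≤ k
        · exact H.far_tail h1
        by_cases h2 : 2 * t + 2 ≤ ne A
        · exact H.step_up hp hk hθ0 hθ1 hθ hρ hM hW (by omega) h2 hB
        · exact le_of_eq (cnt_symm H.ne' (by omega))
      rcases Nat.lt_or_ge s (t + 1) with h | h
      · exact (hB s (by omega)).trans st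
      · rw [show s = t + 1 by omega]
  refine ⟨(ne A + 1) / 2, fun i j hij hj => up j (by omega) i hij, fun i j hi hij => ?_⟩
  by_cases hj : j ≤ ne A
  · rw [cnt_symm H.ne' (s := j) (t := ne A - j) (by omega),
      cnt_symm H.ne' (s := i) (t := ne A - i) (by omega)]
    exact up _ (by omega) _ (by omega)
  · rw [cnt_zero (not_le.1 hj)]
    exact Nat.zero_le _

end Pool.Agent.Lib.MP_64bee1_co
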