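import Pool.Agent.Lib.MP_64bee1_co.Quant

/-!
Switchings: a double counting lemma, sorting inside a window and the change of the number of
inverted edges under a permutation supported in a window.
-/

namespace Pool.Agent.Lib.MP_64bee1_co

open Finset

theorem switch {Ω ι Γ : Type} [DecidableEq Ω] (S S' : Finset Ω) (I : Finset ι) (G : ι → Finset Γ)
    (act : Γ → Ω → Ω) (hinj : ∀ g, Function.Injective (act g)) (P Q : Ω → ι → Prop)
    [∀ ω i, Decidable (P ω i)] [∀ ω i, Decidable (Q ω i)] (T : ℕ) (hT : ∀ i ∈ I, (G i).card ≤ T)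
    (h : ∀ ω ∈ S, ∀ i ∈ I, P ω i → ∃ g ∈ G i, act g ω ∈ S' ∧ Q (act g ω) i) :
    ∑ ω ∈ S, (I.filter (P ω)).card ≤ T * ∑ ω ∈ S', (I.filter (Q ω)).card := by
  simp only [card_filter]
  rw [sum_comm, sum_comm (s := S'), mul_sum]
  refine sum_le_sum fun i hi => ?_
  rw [← card_filter, ← card_filter]
  have h1 : S.filter (fun ω => P ω i) ⊆
      (G i).biUnion fun g => S.filter fun ω => act g ω ∈ S' ∧ Q (act g ω) i := by
    intro ω hω
    obtain ⟨a, b⟩ := mem_filter.1 hω
    obtain ⟨g, hg, c⟩ := h ω a i hi b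
    exact mem_biUnion.2 ⟨g, hg, mem_filter.2 ⟨a, c⟩⟩
  refine (card_le_card h1).trans ((card_biUnion_le_card_mul _ _ _ fun g _ => ?_).trans
    (Nat.mul_le_mul_right _ (hT i hi)))
  refine card_le_card_of_injOn (act g) (fun ω hω => ?_) (hinj g).injOn
  exact mem_filter.2 (mem_filter.1 hω).2

variable {N : ℕ}

/-- Permutations supported in a window. -/
def Sup (W : Finset (Fin N)) : Finset (Equiv.Perm (Fin N)) := univ.filter fun τ => ∀ x, x ∉ W → τ x = x

theorem card_Sup (W : Finset (Fin N)) {m : ℕ} (h : W.card ≤ m) : (Sup W).card ≤ m.factorial := by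
  have e := Fintype.card_congr (Equiv.Perm.subtypeEquivSubtypePerm (fun x : Fin N => x ∈ W))
  rw [Fintype.card_perm, Fintype.card_subtype, Fintype.card_subtype] at e
  have e2 : (univ.filter fun x : Fin N => x ∈ W) = W := by ext; simp
  rw [e2] at e
  unfold Sup
  rw [← e]
  exact Nat.factorial_le h

theorem exists_sort (W : Finset (Fin N)) (w : Equiv.Perm (Fin N)) (κ : Fin N → ℕ) :
    ∃ τ ∈ Sup W, ∀ i ∈ W, ∀ j ∈ W, κ i < κ j → w (τ i) < w (τ j) := by
  obtain ⟨τ, hτ, hmax⟩ := exists_max_image (Sup W)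
    (fun τ => ∑ v, (κ v : ℤ) * (w (τ v) : ℕ)) ⟨1, by simp [Sup]⟩
  refine ⟨τ, hτ, fun i hi j hj hij => ?_⟩
  have hne : i ≠ j := by rintro rfl; exact lt_irrefl _ hij
  by_contra hc
  have hlt : w (τ j) < w (τ i) :=
    lt_of_le_of_ne (not_lt.1 hc) fun e => hne (τ.injective (w.injective e)).symm
  have hmem : τ * Equiv.swap i j ∈ Sup W := by
    refine mem_filter.2 ⟨mem_univ _, fun x hx => ?_⟩
    rw [Equiv.Perm.mul_apply, Equiv.swap_apply_of_ne_of_ne (fun e => hx (by rw [e]; exact hi))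
      (fun e => hx (by rw [e]; exact hj))]
    exact (mem_filter.1 hτ).2 x hx
  have h1 := hmax _ hmem
  have split : ∀ f : Fin N → ℤ, ∑ v, f v = f i + f j + ∑ v ∈ (univ.erase i).erase j, f v := by
    intro f
    rw [← add_sum_erase _ _ (mem_univ i), ← add_sum_erase _ _ (mem_erase.2 ⟨hne.symm, mem_univ j⟩),
      add_assoc]
  rw [split, split fun v => (κ v : ℤ) * (w (τ v) : ℕ)] at h1
  have e : ∑ v ∈ (univ.erase i).erase j, (κ v : ℤ) * (w ((τ * Equiv.swap i j) v) : ℕ) =
      ∑ v ∈ (univ.erase i).erase j, (κ v : ℤ) * (w (τ v) : ℕ) := by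
    refine sum_congr rfl fun v hv => ?_
    rw [Equiv.Perm.mul_apply, Equiv.swap_apply_of_ne_of_ne
      (mem_erase.1 (mem_erase.1 hv).2).1 (mem_erase.1 hv).1]
  rw [e] at h1
  simp only [Equiv.Perm.mul_apply, Equiv.swap_apply_left, Equiv.swap_apply_right] at h1
  have a1 : (κ i : ℤ) < κ j := by exact_mod_cast hij
  have a2 : ((w (τ j) : ℕ) : ℤ) < (w (τ i) : ℕ) := by exact_mod_cast hlt
  nlinarith

variable (A : Fin N → Fin N → Prop) [DecidableRel A] {β : Type} [LinearOrder β]

/-- Number of inverted edges of a labelling. -/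
def ivf (f : Fin N → β) : ℕ :=
  (univ.filter fun p : Fin N × Fin N => A p.1 p.2 ∧ f p.2 < f p.1).card

/-- Number of inverted edges touching a window. -/
def ivt (W : Finset (Fin N)) (f : Fin N → β) : ℕ :=
  (univ.filter fun p : Fin N × Fin N => (A p.1 p.2 ∧ f p.2 < f p.1) ∧ (p.1 ∈ W ∨ p.2 ∈ W)).card

theorem iv_eq_ivf (w : Equiv.Perm (Fin N)) : iv A w = ivf A w := rfl

theorem sg_eq_ivf (f : Fin N → β) : sg A f = 2 * ivf A f - ne A := by
  simp only [sg, ivf, ne, card_filter, Fintype.sum_prod_type]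
  push_cast
  simp only [mul_sum, ← sum_sub_distrib]
  refine sum_congr rfl fun i _ => sum_congr rfl fun j _ => ?_
  by_cases h : A i j <;> by_cases h' : f j < f i <;> simp [h, h']

theorem ivf_change (W : Finset (Fin N)) (f : Fin N → β) {τ : Equiv.Perm (Fin N)} (hτ : τ ∈ Sup W) :
    ivf A (f ∘ τ) + ivt A W f = ivf A f + ivt A W (f ∘ τ) := by
  have s : ∀ g : Fin N → β, ivf A g = ivt A W g + (univ.filter fun p : Fin N × Fin N =>
      (A p.1 p.2 ∧ g p.2 < g p.1) ∧ ¬ (p.1 ∈ W ∨ p.2 ∈ W)).card := by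
    intro g
    unfold ivf ivt
    rw [← card_filter_add_card_filter_not (fun p : Fin N × Fin N => p.1 ∈ W ∨ p.2 ∈ W),
      filter_filter, filter_filter]
  have e : (univ.filter fun p : Fin N × Fin N =>
      (A p.1 p.2 ∧ (f ∘ τ) p.2 < (f ∘ τ) p.1) ∧ ¬ (p.1 ∈ W ∨ p.2 ∈ W)) =
      univ.filter fun p : Fin N × Fin N =>
      (A p.1 p.2 ∧ f p.2 < f p.1) ∧ ¬ (p.1 ∈ W ∨ p.2 ∈ W) := by
    refine filter_congr fun p _ => and_congr_left fun h => ?_
    rw [not_or] at h
    have h' := (mem_filter.1 hτ).2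
    rw [Function.comp_apply, Function.comp_apply, h' _ h.1, h' _ h.2]
  rw [s, s f, e]
  ring

/-- A directed graph whose edges go from one column to the cyclically next one. -/
structure Cyc (k p : ℕ) (col : Fin N → ℕ) : Prop where
  lt : ∀ i j, A i j → i < j
  colk : ∀ i, col i < k
  step : ∀ i j, A i j → col j = (col i + 1) % k
  size : ∀ r, (univ.filter fun v => col v = r).card ≤ p
  path : ∀ r < k, ∃ e : Fin N × Fin N, A e.1 e.2 ∧ col e.1 = r

variable {A} {k p : ℕ} {col : Fin N → ℕ}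

theorem pred_succ_mod {k r : ℕ} (h : r < k) : ((r + 1) % k + k - 1) % k = r := by
  rcases Nat.lt_or_ge (r + 1) k with h1 | h1
  · rw [Nat.mod_eq_of_lt h1, show r + 1 + k - 1 = r + k by omega, Nat.add_mod_right,
      Nat.mod_eq_of_lt h]
  · rw [show r + 1 = k by omega, Nat.mod_self, show 0 + k - 1 = r by omega, Nat.mod_eq_of_lt h]

omit [DecidableRel A] in
theorem Cyc.back (H : Cyc A k p col) {i j : Fin N} (h : A i j) : col i = (col j + k - 1) % k := by
  rw [H.step i j h, pred_succ_mod (H.colk i)]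

theorem Cyc.out_le (H : Cyc A k p col) (v : Fin N) : (univ.filter fun u => A v u).card ≤ p :=
  le_trans (card_le_card fun u hu => mem_filter.2 ⟨mem_univ _, H.step v u (mem_filter.1 hu).2⟩)
    (H.size _)

theorem Cyc.in_le (H : Cyc A k p col) (v : Fin N) : (univ.filter fun u => A u v).card ≤ p :=
  le_trans (card_le_card fun _ hu => mem_filter.2 ⟨mem_univ _, H.back (mem_filter.1 hu).2⟩)
    (H.size _)

theorem Cyc.tails_le (H : Cyc A k p col) (W : Finset (Fin N)) :
    (univ.filter fun e : Fin N × Fin N => A e.1 e.2 ∧ e.1 ∈ W).card ≤ W.card * p := by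
  refine le_trans (card_le_card (t := W.biUnion fun v => (univ.filter fun u => A v u).image
    fun u => (v, u)) fun e he => ?_) (card_biUnion_le_card_mul _ _ _ fun v _ =>
      card_image_le.trans (H.out_le v))
  obtain ⟨a, b⟩ := (mem_filter.1 he).2
  exact mem_biUnion.2 ⟨e.1, b, mem_image.2 ⟨e.2, mem_filter.2 ⟨mem_univ _, a⟩, rfl⟩⟩

theorem Cyc.heads_le (H : Cyc A k p col) (W : Finset (Fin N)) :
    (univ.filter fun e : Fin N × Fin N => A e.1 e.2 ∧ e.2 ∈ W).card ≤ W.card * p := by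
  refine le_trans (card_le_card (t := W.biUnion fun v => (univ.filter fun u => A u v).image
    fun u => (u, v)) fun e he => ?_) (card_biUnion_le_card_mul _ _ _ fun v _ =>
      card_image_le.trans (H.in_le v))
  obtain ⟨a, b⟩ := (mem_filter.1 he).2
  exact mem_biUnion.2 ⟨e.2, b, mem_image.2 ⟨e.1, mem_filter.2 ⟨mem_univ _, a⟩, rfl⟩⟩

theorem Cyc.ivt_le (H : Cyc A k p col) (W : Finset (Fin N)) (f : Fin N → β) :
    ivt A W f ≤ 2 * (W.card * p) := by
  have h1 := H.tails_le W
  have h2 := H.heads_le W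
  refine le_trans (card_le_card (t := (univ.filter fun e : Fin N × Fin N => A e.1 e.2 ∧ e.1 ∈ W) ∪
    univ.filter fun e : Fin N × Fin N => A e.1 e.2 ∧ e.2 ∈ W) fun e he => ?_)
    ((card_union_le _ _).trans (by omega))
  obtain ⟨⟨a, _⟩, b | b⟩ := (mem_filter.1 he).2
  · exact mem_union_left _ (mem_filter.2 ⟨mem_univ _, a, b⟩)
  · exact mem_union_right _ (mem_filter.2 ⟨mem_univ _, a, b⟩)

/-- The window formed by the `j`-th group of `L` consecutive columns. -/
def Win (col : Fin N → ℕ) (L j : ℕ) : Finset (Fin N) := univ.filter fun v => col v / L = j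

omit [DecidableRel A] in
theorem Cyc.card_Win (H : Cyc A k p col) {L : ℕ} (hL : 0 < L) (j : ℕ) :
    (Win col L j).card ≤ L * p := by
  have h := card_biUnion_le_card_mul (range L)
    (fun r => univ.filter fun v => col v = L * j + r) p fun r _ => H.size _
  rw [card_range] at h
  refine le_trans (card_le_card fun v hv => ?_) h
  have e := (mem_filter.1 hv).2
  refine mem_biUnion.2 ⟨col v % L, mem_range.2 (Nat.mod_lt _ hL), mem_filter.2 ⟨mem_univ _, ?_⟩⟩
  rw [← e, Nat.div_add_mod]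

theorem Cyc.dg_le (H : Cyc A k p col) (π : Equiv.Perm (Fin N)) (v : Fin N) : |dg A π v| ≤ p := by
  have h1 : (univ.filter fun u => A v u ∧ π u < π v).card ≤ p :=
    le_trans (card_le_card fun u hu => mem_filter.2 ⟨mem_univ _, (mem_filter.1 hu).2.1⟩) (H.out_le v)
  have h2 : (univ.filter fun u => A u v ∧ π u < π v).card ≤ p :=
    le_trans (card_le_card fun u hu => mem_filter.2 ⟨mem_univ _, (mem_filter.1 hu).2.1⟩) (H.in_le v)
  unfold dg
  rw [sum_boole, sum_boole, abs_le]
  constructor <;> omega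

end Pool.Agent.Lib.MP_64bee1_co
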