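import Pool.Agent.Lib.MP_64bee1_co.Switch

/-!
The far tail by flipping tight edges, and a crude upper bound for the growth of the counts by
sorting a window of columns.
-/

namespace Pool.Agent.Lib.MP_64bee1_co

open Finset

variable {N : ℕ} (A : Fin N → Fin N → Prop) [DecidableRel A]

/-- Number of permutations with a given number of inverted edges. -/
def cnt (t : ℕ) : ℕ := (univ.filter fun w : Equiv.Perm (Fin N) => iv A w = t).card

/-- A non inverted edge with no neighbour whose value lies between the values of its ends. -/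
def Tight (w : Equiv.Perm (Fin N)) (e : Fin N × Fin N) : Prop :=
  A e.1 e.2 ∧ w e.1 < w e.2 ∧
    ∀ z, (A e.1 z ∨ A z e.1 ∨ A e.2 z ∨ A z e.2) → ¬ (w e.1 < w z ∧ w z < w e.2)

instance (w : Equiv.Perm (Fin N)) (e : Fin N × Fin N) : Decidable (Tight A w e) := by
  unfold Tight; infer_instance

variable {A} {k p : ℕ} {col : Fin N → ℕ}

theorem Cyc.iv_swap (H : Cyc A k p col) {w : Equiv.Perm (Fin N)} {e : Fin N × Fin N}
    (h : Tight A w e) : iv A (w * Equiv.swap e.1 e.2) = iv A w + 1 := by
  obtain ⟨i, j⟩ := e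
  obtain ⟨h1, h2, h3⟩ := h
  simp only at h1 h2 h3 ⊢
  have hij := H.lt i j h1
  unfold iv
  rw [← card_insert_of_notMem (a := (i, j)) (by simp [h2.le])]
  congr 1
  ext ⟨a, b⟩
  simp only [mem_filter, mem_univ, true_and, mem_insert, Prod.mk.injEq, Equiv.Perm.mul_apply]
  by_cases hab : A a b
  swap
  · simp only [hab, false_and, or_false, false_iff]
    rintro ⟨rfl, rfl⟩
    exact hab h1
  have hlt := H.lt a b hab
  have inj : ∀ x y, x ≠ y → (w x : ℕ) ≠ w y := fun x y hxy e => hxy (w.injective (Fin.ext e))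
  simp only [hab, true_and]
  by_cases ai : a = i
  · subst ai
    by_cases bj : b = j
    · subst bj
      simp [h2]
    · have := h3 b (Or.inl hab)
      have := inj b a hlt.ne'
      have := inj b j bj
      rw [Equiv.swap_apply_left, Equiv.swap_apply_of_ne_of_ne hlt.ne' bj]
      simp only [bj, and_false, false_or, Fin.lt_def] at *
      omega
  by_cases aj : a = j
  · subst aj
    have bi : b ≠ i := (hij.trans hlt).ne'
    have := h3 b (Or.inr (Or.inr (Or.inl hab)))
    have := inj b a hlt.ne'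
    have := inj b i bi
    rw [Equiv.swap_apply_right, Equiv.swap_apply_of_ne_of_ne bi hlt.ne']
    simp only [ai, false_and, false_or, Fin.lt_def] at *
    omega
  rw [Equiv.swap_apply_of_ne_of_ne ai aj]
  have := inj a i ai
  have := inj a j aj
  by_cases bi : b = i
  · subst bi
    have := h3 a (Or.inr (Or.inl hab))
    rw [Equiv.swap_apply_left]
    simp only [ai, false_and, false_or, Fin.lt_def] at *
    omega
  by_cases bj : b = j
  · subst bj
    have := h3 a (Or.inr (Or.inr (Or.inr hab)))
    rw [Equiv.swap_apply_right]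
    simp only [ai, false_and, false_or, Fin.lt_def] at *
    omega
  rw [Equiv.swap_apply_of_ne_of_ne bi bj]
  simp [ai]

theorem Cyc.many_tight (H : Cyc A k p col) (w : Equiv.Perm (Fin N)) :
    k ≤ (univ.filter (Tight A w)).card + 3 * iv A w := by
  set I := univ.filter fun e : Fin N × Fin N => A e.1 e.2 ∧ w e.2 < w e.1 with hI
  have hsub : range k ⊆ (univ.filter (Tight A w)).image (fun e => col e.1) ∪
      (I.image (fun e => col e.1) ∪ (I.image (fun e => col e.2) ∪
        I.image fun e => (col e.1 + k - 1) % k)) := by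
    intro r hr
    have hr' := mem_range.1 hr
    by_contra hc
    simp only [mem_union, mem_image, not_or, not_exists, not_and] at hc
    obtain ⟨c1, c2, c3, c4⟩ := hc
    obtain ⟨e0, he0⟩ := H.path r hr'
    obtain ⟨e, he, hmin⟩ := exists_min_image
      (univ.filter fun e : Fin N × Fin N => A e.1 e.2 ∧ col e.1 = r)
      (fun e => ((w e.2 : ℕ) : ℤ) - (w e.1 : ℕ)) ⟨e0, mem_filter.2 ⟨mem_univ _, he0⟩⟩
    obtain ⟨e1, e2⟩ := (mem_filter.1 he).2
    have hlt : w e.1 < w e.2 := by
      by_contra hn
      exact c2 e (mem_filter.2 ⟨mem_univ _, e1, lt_of_le_of_ne (not_lt.1 hn)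
        fun q => (H.lt _ _ e1).ne' (w.injective q)⟩) e2
    refine c1 e (mem_filter.2 ⟨mem_univ _, e1, hlt, ?_⟩) e2
    rintro z (hz | hz | hz | hz) ⟨z1, z2⟩
    · have := hmin (e.1, z) (mem_filter.2 ⟨mem_univ _, hz, e2⟩)
      simp only [Fin.lt_def] at this z1 z2
      omega
    · exact c3 (z, e.1) (mem_filter.2 ⟨mem_univ _, hz, z1⟩) e2
    · refine c4 (e.2, z) (mem_filter.2 ⟨mem_univ _, hz, z2⟩) ?_
      rw [← e2]
      exact (H.back e1).symm
    · have := hmin (z, e.2) (mem_filter.2 ⟨mem_univ _, hz, by rw [H.back hz, ← H.back e1, e2]⟩)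
      simp only [Fin.lt_def] at this z1 z2
      omega
  have h1 := card_le_card hsub
  rw [card_range] at h1
  have h2 := card_union_le ((univ.filter (Tight A w)).image (fun e => col e.1))
    (I.image (fun e => col e.1) ∪ (I.image (fun e => col e.2) ∪
        I.image fun e => (col e.1 + k - 1) % k))
  have h3 := card_union_le (I.image (fun e => col e.1)) (I.image (fun e => col e.2) ∪
        I.image fun e => (col e.1 + k - 1) % k)
  have h4 := card_union_le (I.image (fun e => col e.2)) (I.image fun e => (col e.1 + k - 1) % k)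
  have h5 := card_image_le (s := univ.filter (Tight A w)) (f := fun e => col e.1)
  have h6 := card_image_le (s := I) (f := fun e => col e.1)
  have h7 := card_image_le (s := I) (f := fun e => col e.2)
  have h8 := card_image_le (s := I) (f := fun e => (col e.1 + k - 1) % k)
  have h9 : iv A w = I.card := rfl
  omega

theorem Cyc.far_tail (H : Cyc A k p col) {t : ℕ} (ht : 4 * t + 1 ≤ k) : cnt A t ≤ cnt A (t + 1) := by
  have h := switch (univ.filter fun w : Equiv.Perm (Fin N) => iv A w = t)
    (univ.filter fun w : Equiv.Perm (Fin N) => iv A w = t + 1) (univ : Finset (Fin N × Fin N))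
    (fun e => {Equiv.swap e.1 e.2}) (fun τ w => w * τ) (fun τ => mul_left_injective τ)
    (Tight A) (fun w e => A e.1 e.2 ∧ w e.2 < w e.1) 1 (fun e _ => by simp) (by
      intro w hw e _ he
      refine ⟨_, mem_singleton_self _, mem_filter.2 ⟨mem_univ _, ?_⟩, he.1, ?_⟩
      · rw [H.iv_swap he, (mem_filter.1 hw).2]
      · simpa using he.2.1)
  have h1 : cnt A t • (t + 1) ≤ ∑ w ∈ univ.filter fun w : Equiv.Perm (Fin N) => iv A w = t,
      (univ.filter (Tight A w)).card := by
    refine card_nsmul_le_sum _ _ _ fun w hw => ?_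
    have := H.many_tight w
    rw [(mem_filter.1 hw).2] at this
    omega
  have h2 : ∑ w ∈ univ.filter fun w : Equiv.Perm (Fin N) => iv A w = t + 1,
      (univ.filter fun e : Fin N × Fin N => A e.1 e.2 ∧ w e.2 < w e.1).card ≤
      cnt A (t + 1) • (t + 1) :=
    sum_le_card_nsmul _ _ _ fun w hw => le_of_eq (mem_filter.1 hw).2
  rw [smul_eq_mul] at h1 h2
  exact Nat.le_of_mul_le_mul_right (c := t + 1) (by omega) (by omega)

theorem Cyc.tail_col (H : Cyc A k p col) (r : ℕ) :
    (univ.filter fun e : Fin N × Fin N => A e.1 e.2 ∧ col e.1 = r).card ≤ p * p := by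
  have h := H.tails_le (univ.filter fun v => col v = r)
  simp only [mem_filter, mem_univ, true_and] at h
  exact h.trans (Nat.mul_le_mul_right _ (H.size r))

theorem Cyc.head_col (H : Cyc A k p col) (r : ℕ) :
    (univ.filter fun e : Fin N × Fin N => A e.1 e.2 ∧ col e.2 = r).card ≤ p * p := by
  have h := H.heads_le (univ.filter fun v => col v = r)
  simp only [mem_filter, mem_univ, true_and] at h
  exact h.trans (Nat.mul_le_mul_right _ (H.size r))

theorem leave_arith {k L r j : ℕ} (hL : 0 < L) (hr : r < k) (h1 : r / L = j)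
    (h2 : (r + 1) % k / L ≠ j) : r = k - 1 ∨ r = L * j + L - 1 := by
  rcases Nat.lt_or_ge (r + 1) k with h | h
  · right
    rw [Nat.mod_eq_of_lt h] at h2
    have a := Nat.div_add_mod r L
    have b := Nat.mod_lt r hL
    rw [h1] at a
    by_contra hc
    refine h2 (Nat.div_eq_of_lt_le ?_ ?_)
    · rw [mul_comm]; omega
    · rw [add_mul, mul_comm]; omega
  · omega

theorem enter_arith {k L r j : ℕ} (hL : 0 < L) (hr : r < k) (h1 : r / L ≠ j)
    (h2 : (r + 1) % k / L = j) : (r + 1) % k = L * j := by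
  rcases Nat.lt_or_ge (r + 1) k with h | h
  · rw [Nat.mod_eq_of_lt h] at h2 ⊢
    have a := Nat.div_add_mod (r + 1) L
    have b := Nat.mod_lt (r + 1) hL
    rw [h2] at a
    by_contra hc
    refine h1 (Nat.div_eq_of_lt_le ?_ ?_)
    · rw [mul_comm]; omega
    · rw [add_mul, mul_comm]; omega
  · rw [show r + 1 = k by omega, Nat.mod_self] at h2 ⊢
    rw [← h2, Nat.zero_div, mul_zero]

theorem Cyc.ivt_sorted (H : Cyc A k p col) {L : ℕ} (hL : 0 < L) (j : ℕ) (f : Fin N → Fin N)
    (hf : ∀ a ∈ Win col L j, ∀ b ∈ Win col L j, (a : ℕ) < b → f a < f b) :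
    ivt A (Win col L j) f ≤ 3 * (p * p) := by
  have h1 := H.tail_col (k - 1)
  have h2 := H.tail_col (L * j + L - 1)
  have h3 := H.head_col (L * j)
  refine le_trans (card_le_card (t :=
    (univ.filter fun e : Fin N × Fin N => A e.1 e.2 ∧ col e.1 = k - 1) ∪
    ((univ.filter fun e : Fin N × Fin N => A e.1 e.2 ∧ col e.1 = L * j + L - 1) ∪
    univ.filter fun e : Fin N × Fin N => A e.1 e.2 ∧ col e.2 = L * j)) fun e he => ?_)
    ((card_union_le _ _).trans (le_trans (Nat.add_le_add_left (card_union_le _ _) _) (by omega)))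
  obtain ⟨⟨a, b⟩, c⟩ := (mem_filter.1 he).2
  simp only [mem_union, mem_filter, mem_univ, true_and, a]
  have s := H.step _ _ a
  by_cases m1 : e.1 ∈ Win col L j <;> by_cases m2 : e.2 ∈ Win col L j
  · exact absurd (hf _ m1 _ m2 (H.lt _ _ a)) (not_lt.2 b.le)
  · simp only [Win, mem_filter, mem_univ, true_and] at m1 m2
    rw [s] at m2
    rcases leave_arith hL (H.colk _) m1 m2 with q | q
    · exact Or.inl q
    · exact Or.inr (Or.inl q)
  · simp only [Win, mem_filter, mem_univ, true_and] at m1 m2
    rw [s] at m2 ⊢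
    exact Or.inr (Or.inr (enter_arith hL (H.colk _) m1 m2))
  · tauto

/-- A window with many inverted edges starting in it. -/
def Heavy (A : Fin N → Fin N → Prop) [DecidableRel A] (p : ℕ) (col : Fin N → ℕ)
    (w : Equiv.Perm (Fin N)) (j : ℕ) : Prop :=
  3 * (p * p) < (univ.filter fun e : Fin N × Fin N =>
    (A e.1 e.2 ∧ w e.2 < w e.1) ∧ col e.1 / (48 * (p * p)) = j).card

instance (w : Equiv.Perm (Fin N)) (j : ℕ) : Decidable (Heavy A p col w j) := by
  unfold Heavy; infer_instance

theorem Cyc.many_heavy (H : Cyc A k p col) (hp : 0 < p) (hk : 48 * (p * p) ≤ k)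
    (w : Equiv.Perm (Fin N)) (hw : k ≤ 4 * iv A w) :
    k / (48 * (p * p)) + 1 ≤
      16 * (p * p) * ((range (k / (48 * (p * p)) + 1)).filter (Heavy A p col w)).card := by
  set Q := p * p with hQ
  have hQ0 : 0 < Q := by positivity
  set g := k / (48 * Q) + 1 with hg
  set h := ((range g).filter (Heavy A p col w)).card with hh
  have e1 : iv A w = ∑ j ∈ range g, (univ.filter fun e : Fin N × Fin N =>
      (A e.1 e.2 ∧ w e.2 < w e.1) ∧ col e.1 / (48 * Q) = j).card := by
    unfold iv
    rw [card_eq_sum_card_fiberwise (f := fun e : Fin N × Fin N => col e.1 / (48 * Q)) (t := range g)]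
    · simp only [filter_filter]
    · intro e _
      exact mem_range.2 (Nat.lt_succ_of_le (Nat.div_le_div_right (H.colk _).le))
  have e2 : iv A w ≤ h * (48 * Q * Q) + g * (3 * Q) := by
    rw [e1, ← sum_filter_add_sum_filter_not (range g) (Heavy A p col w)]
    refine Nat.add_le_add (sum_le_card_nsmul _ _ _ fun j _ => ?_) ?_
    · have a := H.tails_le (Win col (48 * Q) j)
      have b := H.card_Win (L := 48 * Q) (by positivity) j
      refine le_trans (card_le_card fun e he => ?_) (a.trans ?_)
      · obtain ⟨⟨c, _⟩, d⟩ := (mem_filter.1 he).2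
        exact mem_filter.2 ⟨mem_univ _, c, mem_filter.2 ⟨mem_univ _, d⟩⟩
      · exact (Nat.mul_le_mul_right _ b).trans (le_of_eq (by rw [hQ]; ring))
    · refine (sum_le_card_nsmul _ _ (3 * Q) fun j hj => not_lt.1 (mem_filter.1 hj).2).trans ?_
      exact Nat.mul_le_mul_right _ ((card_filter_le _ _).trans (card_range g).le)
  have e3 : g * (48 * Q) ≤ 2 * k := by
    have := Nat.div_mul_le_self k (48 * Q)
    rw [hg, add_mul]
    omega
  refine Nat.le_of_mul_le_mul_right (c := 48 * Q) ?_ (by positivity)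
  nlinarith

/-- The constant of the crude ratio bound. -/
def Rc (p : ℕ) : ℕ := 16 * (p * p) * (48 * (p * p) * p).factorial * (2 * (48 * (p * p) * p * p))

theorem card_levels (s : Finset ℕ) (B : ℕ) (h : ∀ t ∈ s, cnt A t ≤ B) :
    (univ.filter fun w : Equiv.Perm (Fin N) => iv A w ∈ s).card ≤ s.card * B := by
  refine le_trans (card_le_card (t := s.biUnion fun t =>
    univ.filter fun w : Equiv.Perm (Fin N) => iv A w = t) fun w hw => ?_)
    (card_biUnion_le_card_mul _ _ _ h)
  exact mem_biUnion.2 ⟨_, (mem_filter.1 hw).2, mem_filter.2 ⟨mem_univ _, rfl⟩⟩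

theorem Cyc.crude (H : Cyc A k p col) (hp : 0 < p) (hk : 48 * (p * p) ≤ k) {t B : ℕ}
    (ht : k ≤ 4 * t) (hB : ∀ s < t, cnt A s ≤ B) : cnt A t ≤ Rc p * B := by
  set L := 48 * (p * p) with hL
  have hL0 : 0 < L := by positivity
  set g := k / L + 1 with hg
  have h := switch (univ.filter fun w : Equiv.Perm (Fin N) => iv A w = t)
    (univ.filter fun w : Equiv.Perm (Fin N) => iv A w ∈ Ico (t - 2 * (L * p * p)) t) (range g)
    (fun j => Sup (Win col L j)) (fun τ w => w * τ) (fun τ => mul_left_injective τ)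
    (Heavy A p col) (fun _ _ => True) (L * p).factorial
    (fun j _ => card_Sup _ (H.card_Win hL0 j)) (by
      intro w hw j _ hj
      obtain ⟨τ, hτ, hs⟩ := exists_sort (Win col L j) w (fun v => v)
      refine ⟨τ, hτ, mem_filter.2 ⟨mem_univ _, ?_⟩, trivial⟩
      have a1 := ivf_change A (Win col L j) w hτ
      have a2 := H.ivt_sorted hL0 j (w ∘ τ) hs
      have a3 := H.ivt_le (Win col L j) w
      have a4 := Nat.mul_le_mul_right p (H.card_Win hL0 j)
      have a5 : 3 * (p * p) < ivt A (Win col L j) w := by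
        refine lt_of_lt_of_le hj (card_le_card fun e he => ?_)
        obtain ⟨c, d⟩ := (mem_filter.1 he).2
        exact mem_filter.2 ⟨mem_univ _, c, Or.inl (mem_filter.2 ⟨mem_univ _, d⟩)⟩
      have a6 : ivf A w = t := (mem_filter.1 hw).2
      have a7 : iv A (w * τ) = ivf A (w ∘ τ) := rfl
      rw [mem_Ico, a7]
      omega)
  have h1 : cnt A t • g ≤ ∑ w ∈ univ.filter fun w : Equiv.Perm (Fin N) => iv A w = t,
      16 * (p * p) * ((range g).filter (Heavy A p col w)).card :=
    card_nsmul_le_sum _ _ _ fun w hw => H.many_heavy hp hk w (by rw [(mem_filter.1 hw).2]; exact ht)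
  rw [← mul_sum, smul_eq_mul] at h1
  simp only [filter_true, card_range, sum_const, smul_eq_mul] at h
  have h2 := card_levels (A := A) (Ico (t - 2 * (L * p * p)) t) B fun s hs => hB s (mem_Ico.1 hs).2
  have h3 : (Ico (t - 2 * (L * p * p)) t).card ≤ 2 * (L * p * p) := by
    rw [Nat.card_Ico]; omega
  have h4 := h2.trans (Nat.mul_le_mul_right B h3)
  refine Nat.le_of_mul_le_mul_right (c := g) ?_ (Nat.succ_pos _)
  calc cnt A t * g ≤ 16 * (p * p) * ((L * p).factorial * (2 * (L * p * p) * B * g)) :=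
        h1.trans (Nat.mul_le_mul_left _ (h.trans (Nat.mul_le_mul_left _
          (Nat.mul_le_mul_right _ h4))))
    _ = Rc p * B * g := by rw [Rc, ← hL]; ring

theorem Rc_pos (hp : 0 < p) : 0 < Rc p := by
  unfold Rc
  have := Nat.factorial_pos (48 * (p * p) * p)
  positivity

theorem Cyc.crude_iter (H : Cyc A k p col) (hp : 0 < p) (hk : 48 * (p * p) ≤ k) {t : ℕ}
    (ht : k ≤ 4 * t) (hB : ∀ s ≤ t, cnt A s ≤ cnt A t) (j : ℕ) :
    ∀ s ≤ t + j, cnt A s ≤ Rc p ^ j * cnt A t := by
  induction j with
  | zero => simpa using hB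
  | succ j ih =>
    intro s hs
    rcases Nat.lt_or_ge s (t + j + 1) with h | h
    · refine (ih s (by omega)).trans (Nat.mul_le_mul_right _ ?_)
      exact Nat.pow_le_pow_right (Rc_pos hp) (Nat.le_succ j)
    · rw [pow_succ', mul_assoc]
      exact H.crude hp hk (by omega) fun s' hs' => ih s' (by omega)

end Pool.Agent.Lib.MP_64bee1_co
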