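import Pool.Agent.Lib.MP_64bee1_co.Fold
import Pool.Agent.Lib.MP_64bee1_co.Orbit

/-!
Averaging over transpositions inside windows of four consecutive positions without chords.
-/

namespace Pool.Agent.Lib.MP_64bee1_co

open LaurentPolynomial Finset

/-- Multiples of the unit step by elements of the cone. -/
def Q (f : LP) : Prop := ∃ g, Cone g ∧ f = U 1 * g

theorem Q.uni {f : LP} (h : Q f) : Uni f := by
  obtain ⟨g, hg, rfl⟩ := h
  exact hg.uni

theorem Q.cone {f : LP} (h : Q f) : Cone f := by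
  obtain ⟨g, hg, rfl⟩ := h
  exact hg.m1

theorem Q.add {f g : LP} (hf : Q f) (hg : Q g) : Q (f + g) := by
  obtain ⟨a, ha, rfl⟩ := hf
  obtain ⟨b, hb, rfl⟩ := hg
  exact ⟨a + b, ha.add hb, by ring⟩

theorem Q.mul {f g : LP} (hf : Q f) (hg : Cone g) : Q (f * g) := by
  obtain ⟨a, ha, rfl⟩ := hf
  exact ⟨a * g, ha.mul hg, by ring⟩

theorem cone_nat (n : ℕ) : Cone (n : LP) := by
  induction n with
  | zero => simpa using Cone.zero
  | succ n ih => rw [Nat.cast_succ]; exact ih.add Cone.one

theorem cone_pow {f : LP} (hf : Cone f) (n : ℕ) : Cone (f ^ n) := by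
  induction n with
  | zero => simpa using Cone.one
  | succ n ih => rw [pow_succ]; exact ih.mul hf

theorem cone_two : Cone 2 := by simpa using cone_nat 2

theorem cone_U1 : Cone (U 1) := cone_U (by norm_num) (by norm_num)

theorem cone_U2 : Cone (U 2) := cone_U (by norm_num) (by norm_num)

theorem cone_step : Cone (4 * (U 2 + 6)) := by
  have h4 : Cone (4 : LP) := by simpa using cone_nat 4
  have h6 : Cone (6 : LP) := by simpa using cone_nat 6
  exact h4.mul (cone_U2.add h6)

theorem Q_mono (a t : ℕ) (ht : t ≠ 0) : Q (2 ^ a * U 1 ^ t) := by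
  obtain ⟨t, rfl⟩ := Nat.exists_eq_succ_of_ne_zero ht
  exact ⟨2 ^ a * U 1 ^ t, (cone_pow cone_two a).mul (cone_pow cone_U1 t), by rw [pow_succ]; ring⟩

theorem U_small {d : ℤ} (h : d.natAbs ≤ 1) : U d = 2 ^ (1 - d.natAbs) * U 1 ^ d.natAbs := by
  have h1 : -1 ≤ d := by omega
  have h2 : d ≤ 1 := by omega
  interval_cases d
  · rw [show (-1 : ℤ) = -(1 : ℤ) from rfl, U_neg]; simp
  · simp [U_zero]
  · simp

theorem prod_four {a b c d : ℤ} (ha : a.natAbs ≤ 1) (hb : b.natAbs ≤ 1) (hc : c.natAbs ≤ 1)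
    (hd : d.natAbs ≤ 1) : U a * U b * U c * U d =
      2 ^ (4 - (a.natAbs + b.natAbs + c.natAbs + d.natAbs)) *
        U 1 ^ (a.natAbs + b.natAbs + c.natAbs + d.natAbs) := by
  rw [U_small ha, U_small hb, U_small hc, U_small hd]
  have e : 4 - (a.natAbs + b.natAbs + c.natAbs + d.natAbs) =
      (1 - a.natAbs) + (1 - b.natAbs) + (1 - c.natAbs) + (1 - d.natAbs) := by omega
  rw [e]
  ring

theorem window_sum {t t' : ℕ} (h1 : t = 0 → t' = 2) (h2 : t' = 0 → t = 2) :
    Q (2 ^ (4 - t) * U 1 ^ t + 2 ^ (4 - t') * U 1 ^ t') ∨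
      (2 ^ (4 - t) * U 1 ^ t + 2 ^ (4 - t') * U 1 ^ t' : LP) = 4 * (U 2 + 6) := by
  by_cases a : t = 0
  · right
    rw [a, h1 a, pow_two (U 1), U_one_sq]
    norm_num
    ring
  · by_cases b : t' = 0
    · right
      rw [b, h2 b, pow_two (U 1), U_one_sq]
      norm_num
      ring
    · exact Or.inl ((Q_mono _ _ a).add (Q_mono _ _ b))

/-- Indicator of a strict inequality. -/
def lt (a b : ℕ) : ℤ := if a < b then 1 else 0

/-- Product of the four steps of a window with values `b, c, d, e` and outer values `a, f`. -/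
noncomputable def win (a b c d e f : ℕ) : LP :=
  U (lt c b - lt a b) * U (lt d c - lt b c) * U (lt e d - lt c d) * U (lt f e - lt d e)

theorem win_swap {a b c d e f : ℕ} (h1 : b ≠ c) (h2 : b ≠ d) (h3 : c ≠ d) (h4 : c ≠ e)
    (h5 : d ≠ e) :
    Q (win a b c d e f + win a b d c e f) ∨
      win a b c d e f + win a b d c e f = 4 * (U 2 + 6) := by
  have k : ∀ x y z w : ℕ, (lt x y - lt z w).natAbs ≤ 1 := by
    intro x y z w
    simp only [lt]
    split_ifs <;> simp
  simp only [win]
  rw [prod_four (k _ _ _ _) (k _ _ _ _) (k _ _ _ _) (k _ _ _ _),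
    prod_four (k _ _ _ _) (k _ _ _ _) (k _ _ _ _) (k _ _ _ _)]
  have flip : ∀ x y : ℕ, x ≠ y → lt x y = 1 - lt y x := by
    intro x y hxy
    simp only [lt]
    split_ifs <;> omega
  have spec : ∀ x y : ℕ, (lt x y = 1 ∧ x < y) ∨ (lt x y = 0 ∧ y ≤ x) := by
    intro x y
    simp only [lt]
    split_ifs <;> omega
  rw [flip b c h1, flip b d h2, flip c d h3, flip c e h4, flip d e h5]
  have s1 := spec a b
  have s2 := spec c b
  have s3 := spec d b
  have s4 := spec d c
  have s5 := spec e d
  have s6 := spec e c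
  have s7 := spec f e
  apply window_sum <;> omega

theorem prod_rest {ι : Type} [DecidableEq ι] (s : Finset ι) (d : ι → ℤ)
    (h : ∀ v ∈ s, (d v).natAbs ≤ 2) :
    Q (∏ v ∈ s, U (d v)) ∨ ∃ b : ℕ, ∏ v ∈ s, U (d v) =
      2 ^ b * U 2 ^ (s.filter fun v => (d v).natAbs = 2).card := by
  induction s using Finset.induction_on with
  | empty => exact Or.inr ⟨0, by simp⟩
  | insert a s ha ih =>
    rw [prod_insert ha]
    have hs : ∀ v ∈ s, (d v).natAbs ≤ 2 := fun v hv => h v (mem_insert_of_mem hv)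
    have ha2 := h a (mem_insert_self a s)
    have hc : Cone (∏ v ∈ s, U (d v)) :=
      cone_prod _ _ fun v hv => cone_U (by have := hs v hv; omega) (by have := hs v hv; omega)
    rcases ih hs with hq | ⟨b, hb⟩
    · left
      rw [mul_comm]
      exact hq.mul (cone_U (by omega) (by omega))
    · by_cases c1 : (d a).natAbs = 1
      · left
        rw [U_small c1.le, c1]
        exact (Q_mono _ 1 one_ne_zero).mul hc
      · right
        by_cases c2 : (d a).natAbs = 2
        · have : U (d a) = U 2 := by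
            rcases Int.natAbs_eq (d a) with e | e
            · rw [e, c2]; rfl
            · rw [e, c2, U_neg]; rfl
          refine ⟨b, ?_⟩
          rw [filter_insert, if_pos c2, card_insert_of_notMem (fun hm => ha (mem_filter.mp hm).1),
            this, hb]
          ring
        · have : d a = 0 := by omega
          refine ⟨b + 1, ?_⟩
          rw [filter_insert, if_neg c2, this, U_zero, hb]
          ring

theorem prod_windows (m : ℕ) (f : ℕ → LP) (h : ∀ s < m, Q (f s) ∨ f s = 4 * (U 2 + 6)) :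
    Q (∏ s ∈ range m, f s) ∨ ∏ s ∈ range m, f s = (4 * (U 2 + 6)) ^ m := by
  induction m with
  | zero => right; simp
  | succ m ih =>
    rw [prod_range_succ]
    have hc : Cone (f m) := by
      rcases h m (Nat.lt_succ_self m) with q | q
      · exact q.cone
      · rw [q]; exact cone_step
    rcases ih fun s hs => h s (Nat.lt_succ_of_lt hs) with q | q
    · exact Or.inl (q.mul hc)
    · rcases h m (Nat.lt_succ_self m) with q' | q'
      · left
        rw [mul_comm, q]
        exact q'.mul (cone_pow cone_step m)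
      · right
        rw [q, q', pow_succ]

theorem uni_combine {R W : LP} {e c m : ℕ} (hec : e ≤ c)
    (hm : 3 * 5 ^ m + (3 * c + 4) * 4 ^ m ≤ 7 ^ m)
    (hR : Q R ∨ ∃ b : ℕ, R = 2 ^ b * U 2 ^ e) (hW : Q W ∨ W = (4 * (U 2 + 6)) ^ m) :
    Uni (R * W) := by
  rcases hR with q | ⟨b, rfl⟩
  · refine (q.mul ?_).uni
    rcases hW with q' | rfl
    · exact q'.cone
    · exact cone_pow cone_step m
  · rcases hW with q' | rfl
    · rw [mul_comm]
      exact (q'.mul ((cone_pow cone_two b).mul (cone_pow cone_U2 e))).uni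
    · have h : 3 * 5 ^ m + (3 * e + 4) * 4 ^ m ≤ 7 ^ m :=
        le_trans (Nat.add_le_add_left (Nat.mul_le_mul_right _ (by omega)) _) hm
      have := (uni_orbit h).nat_mul (2 ^ b * 4 ^ m)
      convert this using 1
      push_cast
      rw [mul_pow]
      ring

end Pool.Agent.Lib.MP_64bee1_co
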